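import Pool.Agent.Helper17.PP.DefsC

/-!
# Project PP, part C, goals 1: label functions, the expansion for a fixed `b`

Every statement is a `def ... : Prop` with its complete proof in the docstring. `Q = |k|`.
-/

namespace Pool.Agent.Helper17.PP

open Finset

open Classical in
/-- **C_LAB** (label functions). For `P : Finset B`:
(1) `|lab k P| = Q^|P|`;
(2) if `F` is a function on `B → k`, `z ∈ lab k P`, then the sum of `F (f + z)` over `f ∈ lab k P` is the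
sum of `F f`;
(3) if `z ∈ lab k P` and `F (f + z) = u F f` for all `f ∈ lab k P` with a number `u ≠ 1`, then
`∑_{f ∈ lab k P} F f = 0`;
(4) (independence) if `D ⊆ P` and `F (f + z) = F f` for all `f ∈ lab k P`, `z ∈ lab k D`, then
`Q^|D| ∑_{f ∈ lab k P, f = 0 on D} F f = ∑_{f ∈ lab k P} F f`;
(5) (restriction) if `D ⊆ P`, and `F f = G g` whenever `f ∈ lab k P`, `g ∈ lab k D` agree on `D`, then
`Q^|D| ∑_{f ∈ lab k P} F f = Q^|P| ∑_{g ∈ lab k D} G g`.

PROOF. (1) `lab k P` is the image of the functions `P → k` under an injective map. (2) `f ↦ f + z` is a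
bijection of `lab k P` (`Finset.sum_nbij'` or `sum_bij'` with inverse `f ↦ f - z`, `mem_lab`). (3) From (2),
`∑ F = u ∑ F`. (4) For `v ∈ lab k D` let `s(v) = ∑_{f ∈ lab k P, f = v on D} F f`. The bijection
`f ↦ f + v` shows `s(v) = s(0)`; the sum of the `s(v)` over the `Q^|D|` functions `v ∈ lab k D` is the
whole sum (each `f` has exactly one restriction `v` to `D`: `Finset.sum_fiberwise` or
`sum_comm`). (5) Group the `f ∈ lab k P` by their restriction `g` to `D`; the fibre of each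
`g ∈ lab k D` is `g + lab k (P \ D)`, with `Q^(|P| - |D|)` elements. -/
def C_LAB : Prop :=
  ∀ (B k : Type) [Field k] [Fintype k] (P : Finset B),
    ((lab k P).card = Fintype.card k ^ P.card) ∧
    (∀ (F : (B → k) → ℂ), ∀ z ∈ lab k P, ∑ f ∈ lab k P, F (f + z) = ∑ f ∈ lab k P, F f) ∧
    (∀ (F : (B → k) → ℂ) (u : ℂ), u ≠ 1 → ∀ z ∈ lab k P, (∀ f ∈ lab k P, F (f + z) = u * F f) →
      ∑ f ∈ lab k P, F f = 0) ∧
    (∀ (F : (B → k) → ℂ) (D : Finset B), D ⊆ P →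
      (∀ f ∈ lab k P, ∀ z ∈ lab k D, F (f + z) = F f) →
      (Fintype.card k : ℂ) ^ D.card * ∑ f ∈ lab k P with (∀ q ∈ D, f q = 0), F f =
        ∑ f ∈ lab k P, F f) ∧
    ∀ (F G : (B → k) → ℂ) (D : Finset B), D ⊆ P →
      (∀ f ∈ lab k P, ∀ g ∈ lab k D, (∀ q ∈ D, f q = g q) → F f = G g) →
      (Fintype.card k : ℂ) ^ D.card * ∑ f ∈ lab k P, F f =
        (Fintype.card k : ℂ) ^ P.card * ∑ g ∈ lab k D, G g

open Classical in
/-- **C_DEC** (decompositions of sums over finite sets).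
(1) `∑_{b ⊆ P} ∑_{q ∈ b} F q (b - q) = ∑_{r ⊆ P} ∑_{q ∈ P, q ∉ r} F q r`.
(2) `∑_{b ⊆ P} ∑_{D ⊆ b} F D (b \ D) = ∑_{r ⊆ P} ∑_{D ⊆ P \ r} F D r`.
(3) `∑_{b ⊆ P} ∏_{q ∈ b} f q = ∏_{q ∈ P} (1 + f q)`.

PROOF. (1) `(b, q) ↦ (b.erase q, q)` is a bijection from the pairs with `q ∈ b` to the pairs `(r, q)`,
`q ∈ P`, `q ∉ r`, with inverse `(r, q) ↦ (insert q r, q)` (`Finset.sum_sigma'`, `sum_bij'`).
(2) The same with `(b, D) ↦ (b \ D, D)`, inverse `(r, D) ↦ (r ∪ D, D)`.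
(3) `Finset.prod_one_add` or `Finset.prod_add`. -/
def C_DEC : Prop :=
  ∀ (B : Type) (P : Finset B),
    (∀ (G : Type) [AddCommMonoid G] (F : B → Finset B → G),
      ∑ b ∈ P.powerset, ∑ q ∈ b, F q (b.erase q) = ∑ r ∈ P.powerset, ∑ q ∈ P \ r, F q r) ∧
    (∀ (G : Type) [AddCommMonoid G] (F : Finset B → Finset B → G),
      ∑ b ∈ P.powerset, ∑ D ∈ b.powerset, F D (b \ D) =
        ∑ r ∈ P.powerset, ∑ D ∈ (P \ r).powerset, F D r) ∧
    ∀ f : B → ℝ, ∑ b ∈ P.powerset, ∏ q ∈ b, f q = ∏ q ∈ P, (1 + f q)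

/-- **C_CNT** (from bad sets to `cnt₂`). Let `b` be bad, and suppose that every nonzero solution `(x, c)`
has a prime in the blocks `≥ j₀` in the support of `c`, and that every split prime `q` of `b` in the
blocks `≥ j₀` satisfies `Wt`. Then there is `q ∈ b` with `Wt E b q`, `j₀ ≤ bl q`, `Q - 1 ≤ cnt₂ E b q`.

PROOF. Let `(x, c)` be a nonzero solution, `q` in the support of `c` with `bl q` maximal (the support is
contained in `b`, finite and not empty by hypothesis; the maximum is `≥ j₀`). By `IsSol.supp`, `q ∈ b` is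
split, so `Wt E b q`. If `c q' ≠ 0`, `q' ≠ q` then `q' ∈ b` is split, `bl q' ≤ bl q` and `bl q' ≠ bl q` by
`Wt.uniq`, so `q' ∈ rs b q`. For `u ∈ k`, `u ≠ 0`, the pair `(u x, u c)` satisfies all the conditions of
`IsPre` (all the maps are `k`-linear in `(x, c)`: `R b (u x) (u c) q' = u R b x c q'`) and the condition at
`q`, and it is in `U × lab k b`. These `Q - 1` pairs are distinct since `c q ≠ 0`. -/
def C_CNT : Prop :=
  ∀ (p : ℕ) [Fact p.Prime] (B B₀ k U Λ C : Type) [Field k] [Fintype k] [Algebra (ZMod p) k]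
    [AddCommGroup U] [Module k U] [Fintype U] [AddCommGroup Λ] [Module k Λ]
    [AddCommGroup C] (S : Sys p B B₀ k U Λ C) (E j₀ : ℕ) (b : Finset B), S.Bad b →
    (∀ (x : U) (c : B → k), S.IsSol b x c → ¬ (x = 0 ∧ c = 0) → ∃ q, c q ≠ 0 ∧ j₀ ≤ S.bl q) →
    (∀ q ∈ b, S.spl q → j₀ ≤ S.bl q → S.Wt E b q) →
  ∃ q, S.Wt E b q ∧ j₀ ≤ S.bl q ∧ Fintype.card k - 1 ≤ S.cnt₂ E b q

/-- **C_ORT** (the expansion of `cnt`). Let `q ∈ b ⊆ P`. Then `cnt E b q` is the sum of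
`part E P b q D χ` over `D ⊆ rg E b q` and over the characters `χ` of `Λ`.

PROOF (from `C_LAB`). Write `c' = trc b q t c`. The sum over `D` of the inner sums over `y` of `part` is the sum
over all `y ∈ lab k P` of the term with `D = D(y) = {q' ∈ rg E b q : y q' ≠ 0}` (each `y` occurs for exactly one
`D`), and `∏_{q' ∈ D(y)} ψ(y q' R) = ∏_{q' ∈ rg E b q} ψ(y q' R)` because `ψ 0 = 1`. For fixed `x, t, c`:
(a) the sum over `χ` of `χ v` is `|Λ|` if `v = 0` and `0` otherwise (`AddChar.sum_apply_eq_ite`);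
(b) `∑_{y ∈ lab k P} ∏_{q' ∈ rg} ψ(y q' R(q'))` is `|lab k P|` if all the `R(q')`, `q' ∈ rg E b q`, are
zero, and otherwise `0`: if `R(q₁) ≠ 0`, choose `z ∈ k` with `ψ(z R(q₁)) ≠ 1` (`ψ ≠ 1`, `k` is a field) and
apply `C_LAB` (3) to the function `z` at `q₁` and `0` elsewhere (in `lab k P` because `q₁ ∈ b ⊆ P`).
So the right side is `∑_x ∑_{t ≠ 0} Q^|rs| |lab k P|⁻¹ #{c ∈ lab k P : IsPre E b q x c'}` (`IsPre.supp` and
`IsPre.ne` hold for `c'`; if `t ≠ 0`). By `C_LAB` (5) with `D = rs b q ⊆ P`, this is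
`∑_x ∑_{t ≠ 0} #{c ∈ lab k (rs b q) : IsPre E b q x (trc b q t c)}`, because `trc b q t c` depends only on
the restriction of `c` to `rs b q`. Finally `(t, c) ↦ trc b q t c` is a bijection from the pairs
(`t ≠ 0`, `c ∈ lab k (rs b q)`) to the functions `c'' ∈ lab k b` with `c'' q ≠ 0` and support in
`rs b q ∪ {q}` (inverse: `t = c'' q`, `c = c''` restricted to `rs b q`). -/
def C_ORT : Prop :=
  ∀ (p : ℕ) [Fact p.Prime] (B B₀ k U Λ C : Type) [Field k] [Fintype k] [Algebra (ZMod p) k]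
    [AddCommGroup U] [Module k U] [Fintype U] [AddCommGroup Λ] [Module k Λ] [Fintype Λ]
    [AddCommGroup C] (S : Sys p B B₀ k U Λ C) (ψ : AddChar k ℂ), ψ ≠ 1 →
  ∀ (E : ℕ) (P b : Finset B) (q : B), b ⊆ P → q ∈ b →
    (S.cnt E b q : ℂ) = ∑ D ∈ (S.rg E b q).powerset, ∑ χ : AddChar Λ ℂ, S.part ψ E P b q D χ

/-- **C_PMN** (the main part). Let `q ∈ b ⊆ P`, `bl q ≤ th E (bl q)`. Then
`part E P b q ∅ 1 = (|U|/|Λ|) (Q - 1) Q^(-|rt E b q|)`.

PROOF (from `C_LAB`). All the terms are 1. The number of `y ∈ lab k P` with `y = 0` on `rg E b q` is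
`Q^(|P| - |rg|)` (`C_LAB` (4) with `F = 1`), so `part = |U| (Q - 1) Q^|rs| Q^(-|rg|)/|Λ|`; and `rg E b q` is
the disjoint union of `rs b q` and `rt E b q`: a split prime `q' ∈ b`, `q' ≠ q`, not in the block of `q`,
is in a block below or above the block of `q`, and in the first case `bl q' < bl q ≤ th E (bl q)`. -/
def C_PMN : Prop :=
  ∀ (p : ℕ) [Fact p.Prime] (B B₀ k U Λ C : Type) [Field k] [Fintype k] [Algebra (ZMod p) k]
    [AddCommGroup U] [Module k U] [Fintype U] [AddCommGroup Λ] [Module k Λ] [Fintype Λ]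
    [AddCommGroup C] (S : Sys p B B₀ k U Λ C) (ψ : AddChar k ℂ)
    (E : ℕ) (P b : Finset B) (q : B), b ⊆ P → q ∈ b → S.bl q ≤ th E (S.bl q) →
    S.part ψ E P b q ∅ 1 = (Fintype.card U / Fintype.card Λ : ℂ) * (Fintype.card k - 1) *
      (1 / Fintype.card k) ^ (S.rt E b q).card

open Classical in
/-- **C_PSM** (bound for the other parts). Let `q ∈ b ⊆ P`, `D ⊆ rg E b q`. Then the norm of
`part E P b q D χ` is at most `|U| Q Q^|rs b q| /|lab k P|` times the number of the `y ∈ lab k P` such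
that `y q' ≠ 0 ↔ q' ∈ D` for `q' ∈ rg E b q`, `fU χ D y x = 1` for all `x ∈ U`, and `fB χ D y q'' t = 1` for
all `q'' ∈ rs b q`, `q'' ∉ D`, and all `t`.

PROOF (from `C_LAB`). Bring the sum over `y` outside, and fix `y` and `t ≠ 0`. For `(x, c)` let `A(x, c)` be the
summand. Claim: if one of the last two conditions on `y` fails, `∑_x ∑_{c ∈ lab k P} A(x, c) = 0`. Otherwise
the absolute value of this sum is at most `|U| |lab k P|` (characters of finite groups have norm 1,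
`AddChar.norm_apply`). This gives the result, since `|Λ| ≥ 1` and there are `Q - 1` values of `t`.
*Case 1*: `fU χ D y u ≠ 1` for some `u ∈ U`. Replacing `x` by `x + u` multiplies `A` by
`χ(lam₀ u) ∏_{q' ∈ D} ψ(y q' · res q' u) = fU χ D y u`, because `R b (x + u) c' q' = R b x c' q' + res q' u`;
so for each `c` the sum over `x` is multiplied by a number `≠ 1` under the bijection `x ↦ x + u`: it is 0.
*Case 2*: `fB χ D y q'' z ≠ 1` for some `q'' ∈ rs b q`, `q'' ∉ D`, and `z ∈ k`. Let `e` be the function with value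
`z` at `q''` and `0` elsewhere; `e ∈ lab k P`. `trc b q t (c + e) = trc b q t c + e` (`q'' ≠ q`), so
`lam₀ x + ∑_{q' ∈ b} lam q' (..)` changes by `lam q'' z`, and for `q' ∈ D` (so `q' ≠ q''`, `q'' ∈ b.erase q'`)
`R b x (..) q'` changes by `z a(q', q'')`: `R` contains the value of the label function at `q''` only in the
first sum. So `A(x, c + e) = fB χ D y q'' z · A(x, c)`, and the sum over `c` is zero by
`C_LAB` (3). -/
def C_PSM : Prop :=
  ∀ (p : ℕ) [Fact p.Prime] (B B₀ k U Λ C : Type) [Field k] [Fintype k] [Algebra (ZMod p) k]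
    [AddCommGroup U] [Module k U] [Fintype U] [AddCommGroup Λ] [Module k Λ] [Fintype Λ]
    [AddCommGroup C] (S : Sys p B B₀ k U Λ C) (ψ : AddChar k ℂ)
    (E : ℕ) (P b : Finset B) (q : B), b ⊆ P → q ∈ b →
  ∀ D ⊆ S.rg E b q, ∀ χ : AddChar Λ ℂ,
    ‖S.part ψ E P b q D χ‖ ≤ (Fintype.card U * Fintype.card k *
      (Fintype.card k : ℝ) ^ (S.rs b q).card / (lab k P).card) *
      ((lab k P).filter fun y ↦ (∀ q' ∈ S.rg E b q, y q' ≠ 0 ↔ q' ∈ D) ∧
        (∀ x : U, S.fU ψ χ D y x = 1) ∧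
        ∀ q'' ∈ S.rs b q, q'' ∉ D → ∀ t : k, S.fB ψ χ D y q'' t = 1).card

/-- **C_OSC** (the weak condition at `q`). Let `q ∈ b ⊆ P`, `bl q ≤ th E (bl q)`. Then
`cnt₂ E b q ≤ (1/p) cnt E b q + (1/p) ∑_{s ≠ 0} Re (osc E P b q s)`.

PROOF (from `C_LAB`). As in the proof of `C_ORT`, with `c' = trc b q t c`,
`cnt₂ E b q = ∑_x ∑_{t ≠ 0} Q^|rs| |lab k P|⁻¹ ∑_{c ∈ lab k P} 1[IsPre E b q x c'] 1[R b x c' q = 0]`, and the same
without the last factor for `cnt`. For fixed `x, t, c` let `W` be the set of the `w ∈ ZMod p` with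
`t w = R b x c' q` in `k`; it has at most one element (`ZMod p → k` is injective, `t ≠ 0`) and it
contains `0` iff `R b x c' q = 0`. By orthogonality (`ψ₁ ≠ 1`)
`1[R b x c' q = 0] = (1/p) ∑_{w ∈ W} ∑_{s ∈ ZMod p} ψ₁(s w)`; the term `s = 0` is `|W|/p ≤ 1/p`. This gives
`cnt₂ ≤ (1/p) cnt + (1/p) ∑_{s ≠ 0} T_s`, where
`T_s = ∑_x ∑_{t ≠ 0} Q^|rs| |lab k P|⁻¹ ∑_c 1[IsPre E b q x c'] ∑_{w ∈ W} ψ₁(s w)` (take real parts: `cnt₂`, `cnt` are
real). `IsPre E b q x c'` is the conjunction of the two conditions in `osc` and of `R b x c' q' = 0` for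
`q' ∈ rs b q` (`rg E b q` is the union of `rs b q` and `rt E b q` because `bl q ≤ th E (bl q)`); the indicator
of the last condition is `|lab k P|⁻¹ ∑_{y ∈ lab k P} ∏_{q' ∈ rs b q} ψ(y q' R b x c' q')` ((b) in the proof
of `C_ORT`, with `rs` in place of `rg`). So `T_s = osc E P b q s`. -/
def C_OSC : Prop :=
  ∀ (p : ℕ) [Fact p.Prime] (B B₀ k U Λ C : Type) [Field k] [Fintype k] [Algebra (ZMod p) k]
    [AddCommGroup U] [Module k U] [Fintype U] [AddCommGroup Λ] [Module k Λ]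
    [AddCommGroup C] (S : Sys p B B₀ k U Λ C) (ψ : AddChar k ℂ) (ψ₁ : AddChar (ZMod p) ℂ),
    ψ ≠ 1 → ψ₁ ≠ 1 →
  ∀ (E : ℕ) (P b : Finset B) (q : B), b ⊆ P → q ∈ b → S.bl q ≤ th E (S.bl q) →
    (S.cnt₂ E b q : ℝ) ≤ (1 / p : ℝ) * S.cnt E b q +
      (1 / p : ℝ) * ∑ s ∈ (univ : Finset (ZMod p)).erase 0, (S.osc ψ ψ₁ E P b q s).re

end Pool.Agent.Helper17.PP
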