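import Mathlib

/-!
# Project PP (MP_fc6b1e_nt): a positive proportion of the twists, abstract part: definitions

`B` is a set of labelled primes with a norm `N`; the elements of `B` with the same base `bs` are the same
prime with different labels (for `p = 2` there is only one label). A prime is split or not.
A finite subset `b` of `B` on which `bs` is injective and with `∑ cls = cl₀` stands for a cyclic
extension of degree `p` of the base field, ramified exactly at the primes of `b` (outside a fixed finite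
set). The twisted Selmer group of this extension consists of the pairs `(x, c)`, `x ∈ U`, `c : B → k`
supported at the split primes of `b`, which satisfy the condition `lam` (with values in `Λ`) and one
condition with values in the finite field `k` at every split prime of `b`.
-/

namespace Pool.Agent.Helper17.PP

open Finset

/-- The data of the abstract system. `a q q'` is the symbol at `q` of the element attached to `q'`,
`res q x` the symbol at `q` of the element `x` of `U`, `kap q q'` the symbol at `q` of the Kummer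
generator attached to `q'`, `dg q` the self term. -/
structure Sys (p : ℕ) (B B₀ k U Λ C : Type) [Field k] [AddCommGroup U] [Module k U]
    [AddCommGroup Λ] [Module k Λ] [AddCommGroup C] where
  bs : B → B₀
  N : B → ℕ
  spl : B → Prop
  cls : B → C
  cl₀ : C
  lam₀ : U →ₗ[k] Λ
  lam : B → (k →ₗ[k] Λ)
  res : B → (U →ₗ[k] k)
  a : B → B → k
  dg : B → k
  kap : B → B → ZMod p
  two_le : ∀ q, 2 ≤ N q
  fin : ∀ Z : ℕ, {q | N q ≤ Z}.Finite
  bsN : ∀ q q', bs q = bs q' → N q = N q'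
  bsS : ∀ q q', bs q = bs q' → (spl q ↔ spl q')

namespace Sys

variable {p : ℕ} {B B₀ k U Λ C : Type} [Field k] [AddCommGroup U] [Module k U]
    [AddCommGroup Λ] [Module k Λ] [AddCommGroup C] (S : Sys p B B₀ k U Λ C)

/-- The dyadic block of the prime `q`: `2^(bl q) ≤ N q < 2^(bl q + 1)`. -/
def bl (q : B) : ℕ := Nat.log 2 (S.N q)

/-- The norm of a finite set of primes. -/
def nm (b : Finset B) : ℕ := ∏ q ∈ b, S.N q

/-- The primes of norm at most `Y`. -/
noncomputable def upto (Y : ℝ) : Finset B := (S.fin ⌊Y⌋₊).toFinset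

open Classical in
/-- The primes in the blocks `< n`. -/
noncomputable def below (n : ℕ) : Finset B := (S.fin (2 ^ n)).toFinset.filter fun q ↦ S.bl q < n

open Classical in
/-- The primes in the block `j`. -/
noncomputable def blk (j : ℕ) : Finset B :=
  (S.fin (2 ^ (j + 1))).toFinset.filter fun q ↦ S.bl q = j

open Classical in
/-- The finite sets of primes whose norm is in the block `i`. -/
noncomputable def mods (i : ℕ) : Finset (Finset B) :=
  (S.upto (2 ^ (i + 1))).powerset.filter fun D ↦ Nat.log 2 (S.nm D) = i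

/-- The family: the labels are unique and the class is `cl₀`. -/
def Fam (b : Finset B) : Prop := Set.InjOn S.bs (b : Set B) ∧ ∑ q ∈ b, S.cls q = S.cl₀

open Classical in
/-- The left side of the condition at `q` for the pair `(x, c)` and the extension `b`. -/
noncomputable def R [Algebra (ZMod p) k] (b : Finset B) (x : U) (c : B → k) (q : B) : k :=
  S.res q x + ∑ q' ∈ b.erase q, c q' * S.a q q' +
    c q * (S.dg q + ∑ q' ∈ b.erase q, algebraMap (ZMod p) k (S.kap q q'))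

/-- `(x, c)` is in the Selmer group of the extension `b`. -/
structure IsSol [Algebra (ZMod p) k] (b : Finset B) (x : U) (c : B → k) : Prop where
  supp : ∀ q, c q ≠ 0 → q ∈ b ∧ S.spl q
  lam : S.lam₀ x + ∑ q ∈ b, S.lam q (c q) = 0
  loc : ∀ q ∈ b, S.spl q → S.R b x c q = 0

/-- The Selmer group of `b` is not zero. -/
def Bad [Algebra (ZMod p) k] (b : Finset B) : Prop :=
  ∃ (x : U) (c : B → k), S.IsSol b x c ∧ ¬ (x = 0 ∧ c = 0)

/-- The character of `k` attached to the prime `q` by the functional `(χ, D, y)`: `fB t` is the value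
of the functional at `t` times the element attached to `q`. -/
noncomputable def fB (ψ : AddChar k ℂ) (χ : AddChar Λ ℂ) (D : Finset B) (y : B → k) (q : B)
    (t : k) : ℂ :=
  χ (S.lam q t) * ∏ q' ∈ D, ψ (y q' * (t * S.a q' q))

/-- The value of the functional `(χ, D, y)` at the element `x` of `U`. -/
noncomputable def fU (ψ : AddChar k ℂ) (χ : AddChar Λ ℂ) (D : Finset B) (y : B → k) (x : U) :
    ℂ :=
  χ (S.lam₀ x) * ∏ q' ∈ D, ψ (y q' * S.res q' x)

/-- The character of the modulus `(D, y, c)` at the prime `q`. -/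
noncomputable def chr [Algebra (ZMod p) k] (ψ : AddChar k ℂ) (D : Finset B) (y c : B → k) (t : k)
    (q : B) : ℂ :=
  ∏ q' ∈ D, ψ (y q' * (t * S.a q' q + c q' * algebraMap (ZMod p) k (S.kap q' q)))

open Classical in
/-- The analytic hypotheses, with one constant `K`. The sum of `exp(-(nm b)/X)` is compared with
`X * g X` (`g = 1` for `p = 2`, `g X = (max 1 (log X))^(κ-1)` in general). -/
structure Hyp [Fintype k] [Algebra (ZMod p) k] (ψ : AddChar k ℂ) (ψ₁ : AddChar (ZMod p) ℂ)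
    (g : ℝ → ℝ) (K : ℕ) : Prop where
  one_le : 1 ≤ K
  ψ_ne : ψ ≠ 1
  ψ₁_ne : ψ₁ ≠ 1
  /-- Chebyshev. -/
  che : ∀ j : ℕ, 1 ≤ j → ∑ q ∈ S.blk j, (1 : ℝ) / S.N q ≤ K / j
  g_one : ∀ Y, 1 ≤ g Y
  g_mono : ∀ Y X, Y ≤ X → g Y ≤ K * g X
  /-- The upper bound for sums of multiplicative functions. -/
  ht : ∀ (f : B → ℝ), (∀ q, 0 ≤ f q ∧ f q ≤ Fintype.card k + 4) → ∀ (Y : ℝ), 0 < Y →
    ∀ P : Finset B, ∑ b ∈ P.powerset, (∏ q ∈ b, f q) * Real.exp (-(S.nm b / Y)) ≤
      K * (Y * min 1 Y * g Y) * Real.exp (∑ q ∈ S.upto Y, (f q - 1) / S.N q)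
  /-- Mertens, lower bound, split primes. -/
  mers : ∀ m n : ℕ, 1 ≤ m → m ≤ n → (1 / K : ℝ) * Real.log (n / m) - K ≤
    ∑ q ∈ S.below n with S.spl q ∧ m ≤ S.bl q, (1 : ℝ) / S.N q
  /-- Mertens, lower bound, primes which are not split. -/
  mern : ∀ m n : ℕ, 1 ≤ m → m ≤ n → (1 / K : ℝ) * Real.log (n / m) - K ≤
    ∑ q ∈ S.below n with ¬ S.spl q ∧ m ≤ S.bl q, (1 : ℝ) / S.N q
  /-- A functional which is trivial on `U` is nontrivial at many primes. -/
  sm : ∀ (D : Finset B) (y : B → k) (χ : AddChar Λ ℂ) (n : ℕ), 1 ≤ n →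
    (∀ q ∈ D, S.spl q ∧ y q ≠ 0) → Set.InjOn S.bs (D : Set B) → (D.Nonempty ∨ χ ≠ 1) →
    (∀ x : U, S.fU ψ χ D y x = 1) →
    (1 / K : ℝ) * Real.log n - K * Real.log (Real.log (S.nm D + 3)) - K ≤
      ∑ q ∈ S.below n with (S.spl q ∧ (∀ q' ∈ D, S.bs q' ≠ S.bs q) ∧
        ∃ t : k, S.fB ψ χ D y q t ≠ 1), (1 : ℝ) / S.N q
  /-- A fixed nonzero element has nonzero symbol at many primes. -/
  kum : ∀ (x : U) (c : B →₀ k), (∀ q, c q ≠ 0 → S.spl q) →
    Set.InjOn S.bs (c.support : Set B) → ¬ (x = 0 ∧ c = 0) →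
    ∀ T : ℝ, ∃ n : ℕ, T ≤ ∑ q ∈ S.below n with (S.spl q ∧ (∀ q' ∈ c.support, S.bs q' ≠ S.bs q) ∧
      S.res q x + ∑ q' ∈ c.support, c q' * S.a q q' ≠ 0), (1 : ℝ) / S.N q
  /-- Bilinear bound: a split prime `q` (the variable) and a modulus `D` of split primes. -/
  bl₁ : ∀ (i j : ℕ) (t : k) (y c : B → k) (α : B → ℂ) (β : Finset B → ℂ) (Y : ℝ), 1 ≤ j →
    t ≠ 0 → 0 < Y → (∀ q, ‖α q‖ ≤ 1) → (∀ D, ‖β D‖ ≤ (Fintype.card k : ℝ) ^ D.card) →
    (∀ D, β D ≠ 0 → Set.InjOn S.bs (D : Set B) ∧ ∀ q ∈ D, S.spl q ∧ S.bl q ≠ j ∧ y q ≠ 0) →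
    ‖∑ q ∈ S.blk j with S.spl q, ∑ D ∈ S.mods i, α q * β D * S.chr ψ D y c t q *
      (Real.exp (-(S.N q * S.nm D / Y)) : ℂ)‖ ≤
      K * 2 ^ (i + j) * (i + 1) ^ K * (2 : ℝ) ^ (-(min i j : ℝ) / K) *
        Real.exp (-((2 : ℝ) ^ (i + j) / (2 * Y)))
  /-- Bilinear bound: a prime `P` which is not split (the variable) and a split prime `q` (the
  modulus). -/
  bl₂ : ∀ (i j : ℕ) (s : ZMod p) (α β : B → ℂ) (Y : ℝ), 1 ≤ i → 1 ≤ j → s ≠ 0 → 0 < Y →
    (∀ q, ‖α q‖ ≤ 1) → (∀ q, ‖β q‖ ≤ 1) →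
    ‖∑ P ∈ S.blk i with ¬ S.spl P, ∑ q ∈ S.blk j with S.spl q, α P * β q *
      ψ₁ (s * S.kap q P) * (Real.exp (-((S.N q : ℝ) * S.N P / Y)) : ℂ)‖ ≤
      K * 2 ^ (i + j) * (i + j) ^ K * (2 : ℝ) ^ (-(min i j : ℝ) / K) *
        Real.exp (-((2 : ℝ) ^ (i + j) / (2 * Y)))

end Sys

open Classical in
/-- **MT**, the abstract moment theorem (part C). The bad `b` of the family have Abel mean at most
`(|U|/|Λ|) Q/(p(Q-1))`, where `Q = |k|`. -/
def MT : Prop :=
  ∀ (p : ℕ) [Fact p.Prime] (B B₀ k U Λ C : Type) [Field k] [Fintype k] [Algebra (ZMod p) k]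
    [AddCommGroup U] [Module k U] [Fintype U] [AddCommGroup Λ] [Module k Λ] [Fintype Λ]
    [AddCommGroup C] [Finite C] (S : Sys p B B₀ k U Λ C) (ψ : AddChar k ℂ)
    (ψ₁ : AddChar (ZMod p) ℂ) (g : ℝ → ℝ) (K : ℕ), S.Hyp ψ ψ₁ g K →
  ∀ ε : ℝ, 0 < ε → ∃ X₀ : ℝ, ∀ X : ℝ, X₀ ≤ X → ∀ P : Finset B,
    ∑ b ∈ P.powerset with (S.Fam b ∧ S.Bad b), Real.exp (-(S.nm b / X)) ≤
      (Fintype.card U / Fintype.card Λ) * (Fintype.card k / (p * (Fintype.card k - 1))) *
        ∑ b ∈ P.powerset with S.Fam b, Real.exp (-(S.nm b / X)) + ε * (X * g X)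

end Pool.Agent.Helper17.PP
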