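import Pool.Agent.Helper17.PP.GoalsC2

/-!
# Project PP, part C, goals 3: the exceptional sets, the sums over the blocks, the assembly

Every statement is a `def ... : Prop` with its complete proof in the docstring. `Q = |k|`, `e(z)` is
`exp(-z)`.
-/

namespace Pool.Agent.Helper17.PP

open Finset

open Classical in
/-- **C_EX0** (solutions supported at small primes). For every `j₀` the measure of the `b` in the family
which have a nonzero solution `(x, c)` with `c` supported in the blocks `< j₀` is `o(X g(X))`.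

PROOF (from `ht`, `kum` of `Hyp`). The set `Z` of the nonzero pairs `(x, c)`, `c` supported at split primes in
the blocks `< j₀`, is finite. Fix `(x, c) ∈ Z` such that `bs` is injective on the support of `c`. Let
`f(q) = 0` if `q` is split, `bs q' ≠ bs q` for all `q'` in the support of `c`, and
`res q x + ∑_{q' ∈ supp c} c q' a(q, q') ≠ 0`; otherwise `f(q) = 1`. If `(x, c)` is a solution for `b` in the family,
then `f = 1` on `b`: if `q ∈ b` is split and its base is not in `bs(supp c)`, then `c q = 0` and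
`0 = R b x c q = res q x + ∑_{q' ∈ supp c} c q' a(q, q')` (`supp c ⊆ b.erase q`). So by `ht` (`min(1,X) = 1`) the
measure of these `b` is at most `K X g(X) e(∑_{q ∈ upto X, f(q) = 0} 1/N q)`. Given `T`, by `kum` there is
`n` such that the sum over the primes of `below n` with `f = 0` is `≥ T`; for `X ≥ 2^n`, `below n ⊆ upto X`.
Choose `T` with `|Z| K e^(-T) ≤ ε`. -/
def C_EX0 : Prop :=
  ∀ (p : ℕ) [Fact p.Prime] (B B₀ k U Λ C : Type) [Field k] [Fintype k] [Algebra (ZMod p) k]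
    [AddCommGroup U] [Module k U] [Fintype U] [AddCommGroup Λ] [Module k Λ] [Fintype Λ]
    [AddCommGroup C] [Finite C] (S : Sys p B B₀ k U Λ C) (ψ : AddChar k ℂ)
    (ψ₁ : AddChar (ZMod p) ℂ) (g : ℝ → ℝ) (K : ℕ), S.Hyp ψ ψ₁ g K →
  ∀ (j₀ : ℕ) (ε : ℝ), 0 < ε → ∃ X₀ : ℝ, ∀ X, X₀ ≤ X → ∀ P : Finset B,
    ∑ b ∈ P.powerset with (S.Fam b ∧ ∃ (x : U) (c : B → k), S.IsSol b x c ∧
      ¬ (x = 0 ∧ c = 0) ∧ ∀ q, c q ≠ 0 → S.bl q < j₀), Real.exp (-(S.nm b / X)) ≤ ε * (X * g X)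

open Classical in
/-- **C_EX2** (two primes in one block). The measure of the `b` which contain two primes in the same
block `≥ j₀` is at most `K' j₀⁻¹ X g(X)`.

PROOF (from `C_DEC`, and `che`, `ht`, `g_mono` of `Hyp`). It is at most the sum over `j ≥ j₀`, over
`q, q' ∈ blk j` and over `r ⊆ P` of `e(N q N q' nm r/X)` (`b = {q, q'} ∪ r`; only finitely many `j` occur: the
blocks of the primes of `P`). By `ht` with `f = 1`, `Y = X/(N q N q')`, the inner sum is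
`≤ K Y g(Y) ≤ K² X g(X)/(N q N q')`; by `che` the sum over `q, q'` of `1/(N q N q')` is `≤ K²/j²`; and
`∑_{j ≥ j₀} 1/j² ≤ 2/j₀`. So `K' = 2 K⁴`. -/
def C_EX2 : Prop :=
  ∀ (p : ℕ) [Fact p.Prime] (B B₀ k U Λ C : Type) [Field k] [Fintype k] [Algebra (ZMod p) k]
    [AddCommGroup U] [Module k U] [Fintype U] [AddCommGroup Λ] [Module k Λ] [Fintype Λ]
    [AddCommGroup C] [Finite C] (S : Sys p B B₀ k U Λ C) (ψ : AddChar k ℂ)
    (ψ₁ : AddChar (ZMod p) ℂ) (g : ℝ → ℝ) (K : ℕ), S.Hyp ψ ψ₁ g K →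
  ∃ K' : ℕ, ∀ (j₀ : ℕ) (X : ℝ) (P : Finset B), 1 ≤ j₀ → 1 ≤ X →
    ∑ b ∈ P.powerset with (∃ q ∈ b, ∃ q' ∈ b, q ≠ q' ∧ S.bl q = S.bl q' ∧ j₀ ≤ S.bl q),
      Real.exp (-(S.nm b / X)) ≤ K' / j₀ * (X * g X)

open Classical in
/-- **C_EX3** (no large prime which is not split). The measure of the `b` all of whose primes which are
not split are in blocks `< √(lg X)` is `o(X g(X))`.

PROOF (from `ht`, `mern` of `Hyp`). Let `s = Nat.sqrt (lg X)`, `L = lg X`, `f(q) = 0` if `q` is not split and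
`s ≤ bl q`, otherwise `1`. By `ht` the measure is `≤ K X g(X) e(Σ)`, `Σ` the sum of `1/N q` over the `q ∈ upto X`
with `f(q) = 0`; `below L ⊆ upto X` (`2^L ≤ X`), so by `mern` (`m = s ≥ 1`, `n = L`)
`Σ ≥ K⁻¹ log(L/s) - K ≥ K⁻¹ log s - K`, which tends to infinity with `X`. -/
def C_EX3 : Prop :=
  ∀ (p : ℕ) [Fact p.Prime] (B B₀ k U Λ C : Type) [Field k] [Fintype k] [Algebra (ZMod p) k]
    [AddCommGroup U] [Module k U] [Fintype U] [AddCommGroup Λ] [Module k Λ] [Fintype Λ]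
    [AddCommGroup C] [Finite C] (S : Sys p B B₀ k U Λ C) (ψ : AddChar k ℂ)
    (ψ₁ : AddChar (ZMod p) ℂ) (g : ℝ → ℝ) (K : ℕ), S.Hyp ψ ψ₁ g K →
  ∀ ε : ℝ, 0 < ε → ∃ X₀ : ℝ, ∀ X, X₀ ≤ X → ∀ P : Finset B,
    ∑ b ∈ P.powerset with (∀ q ∈ b, ¬ S.spl q → S.bl q < Nat.sqrt (lg X)),
      Real.exp (-(S.nm b / X)) ≤ ε * (X * g X)

open Classical in
/-- **C_EX5** (the moduli are not too large). For `E ≥ 1` and `ε > 0` there is `j₁` such that for `j₀ ≥ j₁`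
the measure of the `b` which contain a prime `q` in a block `≥ j₀` and a subset `D` not containing `q`, of
primes in blocks `≤ th E (bl q)`, with `nm D ≥ 2^(tb E (bl q))`, is at most `ε X g(X)`.

PROOF (from `C_DEC`, and `che`, `ht`, `g_mono` of `Hyp`; Rankin's method). Let `q` be as in the statement,
`j = bl q`, `θ = th E j`, `r = b.erase q`. Let `f(q') = (N q')^(1/θ)` (real power) if `bl q' ≤ θ`, otherwise `1`;
`1 ≤ f ≤ 4` because `N q' < 2^(θ+1) ≤ 4^θ`. Then `∏_{q' ∈ r} f(q') ≥ (nm D)^(1/θ) ≥ 2^(tb E j/θ)`. So the measure is at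
most `∑_j ∑_{q ∈ blk j} 2^(-tb E j/θ) ∑_{r ⊆ P} (∏ f) e(nm r/Y)`, `Y = X/N q`, and by `ht` the inner sum is
`≤ K Y g(Y) exp(∑_{bl q' ≤ θ} (f(q') - 1)/N q')`. Put `u = log(N q')/θ ≤ (θ+1)(log 2)/θ ≤ 2 log 2`; by convexity
`e^u - 1 ≤ 3u/(2 log 2)`, so `f(q') - 1 ≤ 3 (bl q' + 1)/(2θ)`, and by `che`
`∑_{bl q' ≤ θ} (f(q') - 1)/N q' ≤ ∑_{m=1}^θ 3 (m+1) K/(2θ m) ≤ 3K`. `g(Y) ≤ K g(X)`. So the measure is at most
`K³ e^(3K) X g(X) ∑_{j ≥ j₀} j⁻¹ 2^(-tb E j/θ)`. With `a = j/E`, `j/(2E) = a/2` (natural division), so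
`tb E j/θ = 2^(a - a/2) ≥ 2^(j/(2E)) ≥ j/(2E)` (real quotient minus 1), and the series converges: its tails tend
to `0`. -/
def C_EX5 : Prop :=
  ∀ (p : ℕ) [Fact p.Prime] (B B₀ k U Λ C : Type) [Field k] [Fintype k] [Algebra (ZMod p) k]
    [AddCommGroup U] [Module k U] [Fintype U] [AddCommGroup Λ] [Module k Λ] [Fintype Λ]
    [AddCommGroup C] [Finite C] (S : Sys p B B₀ k U Λ C) (ψ : AddChar k ℂ)
    (ψ₁ : AddChar (ZMod p) ℂ) (g : ℝ → ℝ) (K : ℕ), S.Hyp ψ ψ₁ g K →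
  ∀ (E : ℕ) (ε : ℝ), 1 ≤ E → 0 < ε → ∃ j₁ : ℕ, ∀ j₀, j₁ ≤ j₀ → ∀ X : ℝ, 1 ≤ X → ∀ P : Finset B,
    ∑ b ∈ P.powerset with (∃ q ∈ b, j₀ ≤ S.bl q ∧ ∃ D ⊆ b, q ∉ D ∧
      (∀ q' ∈ D, S.bl q' ≤ th E (S.bl q)) ∧ 2 ^ tb E (S.bl q) ≤ S.nm D),
      Real.exp (-(S.nm b / X)) ≤ ε * (X * g X)

open Classical in
/-- **C_EX6** (no huge prime). The measure of the `b` which contain a prime in a block
`> th E (√(lg X))` is `o(X g(X))`.

PROOF (from `C_DEC`, and `che`, `ht`, `g_mono` of `Hyp`). Let `θ = th E (Nat.sqrt (lg X))`. The measure is at most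
`∑_{bl q > θ} ∑_{r ⊆ P} e(N q nm r/X)`, and by `ht` (`f = 1`, `Y = X/N q`) the inner sum is
`≤ K Y min(1,Y) g(Y) ≤ K² (X/N q)² g(X)`. By `che`
`∑_{bl q > θ} (N q)^(-2) ≤ ∑_{m > θ} 2^(-m) K/m ≤ K 2^(-θ)`. For `X` large, `θ = 2^(s/(2E))`, `s = Nat.sqrt (lg X)`, is
larger than `2 (lg X + 1)`, so `2^θ ≥ X²`, and the measure is at most `K³ g(X) ≤ ε X g(X)`. -/
def C_EX6 : Prop :=
  ∀ (p : ℕ) [Fact p.Prime] (B B₀ k U Λ C : Type) [Field k] [Fintype k] [Algebra (ZMod p) k]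
    [AddCommGroup U] [Module k U] [Fintype U] [AddCommGroup Λ] [Module k Λ] [Fintype Λ]
    [AddCommGroup C] [Finite C] (S : Sys p B B₀ k U Λ C) (ψ : AddChar k ℂ)
    (ψ₁ : AddChar (ZMod p) ℂ) (g : ℝ → ℝ) (K : ℕ), S.Hyp ψ ψ₁ g K →
  ∀ (E : ℕ) (ε : ℝ), 1 ≤ E → 0 < ε → ∃ X₀ : ℝ, ∀ X, X₀ ≤ X → ∀ P : Finset B,
    ∑ b ∈ P.powerset with (∃ q ∈ b, th E (Nat.sqrt (lg X)) < S.bl q),
      Real.exp (-(S.nm b / X)) ≤ ε * (X * g X)

/-- **C_SM1** (sum of the bounds of `C_LRG`), with `E = 2K(K+1)` and `A = 4K`.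

PROOF. Let `C_K` be a bound for `(i+1)^K 2^(-i/(2K))`, `i ∈ ℕ`. For `i ≤ j` the term is
`≤ C_K 2^(-i/(2K))`, and the sum over `i ≥ ti (4K) j` of this is `≤ C' 2^(-ti (4K) j/(2K)) =
C' 2^(-2 Nat.log 2 j) ≤ 4 C'/j²`. For `j < i < tb E j` the term is at most `2^K (tb E j)^K 2^(-j/K)`, so the sum is at
most `2^K (tb E j)^(K+1) 2^(-j/K) ≤ 2^K 2^((K+1) j/E - j/K) = 2^K 2^(-j/(2K))`. Both bounds are summable in `j`. -/
def C_SM1 : Prop :=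
  ∀ (K : ℕ) (ε : ℝ), 1 ≤ K → 0 < ε → ∃ j₁ : ℕ, ∀ j₀, j₁ ≤ j₀ → ∀ J : ℕ,
    ∑ j ∈ Ico j₀ J, ∑ i ∈ Ico (ti (4 * K) j) (tb (2 * K * (K + 1)) j),
      ((i : ℝ) + 1) ^ K * (2 : ℝ) ^ (-(min i j : ℝ) / K) ≤ ε

/-- **C_SM2** (sum of the bounds of `C_SML`).

PROOF. Write `a_j = (ti A j + 2)^K'`, `n_j = L - (j + 1 + ti A j)` (in `ℕ`); `ti A j ≤ A log₂ j`.
(i) `3j ≤ L`: for `L` large (depending on `A`) `ti A j + 1 ≤ L/3` for all `j ≤ L`, so `n_j ≥ L/3 ≥ j` and the term is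
at most `a_j j^(-1-1/K)`. This is summable, so the sum over these `j ≥ j₀` is `≤ ε/3` if `j₀ ≥ j₁`.
(ii) `L/3 < j ≤ L + 1`. Let `T = ti A (L+1)`. The term is at most
`(3/L) a_{L+1} ((max 1 (L - 1 - T - j))^(-1/K) + (L/3)^(-1/K))` (as `(min j n)^(-1/K) ≤ j^(-1/K) + n^(-1/K)`), and
the sum over `j` of `(max 1 (L-1-T-j))^(-1/K)` is at most `T + 3 + ∑_{1 ≤ m ≤ L} m^(-1/K) ≤
T + 3 + √L + L · L^(-1/(2K))`. So the sum of these terms is at most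
`(3/L) a_{L+1} (T + 3 + √L + L^(1-1/(2K)) + 2L (L/3)^(-1/K))`, which tends to `0` as `L → ∞` (`a_{L+1}` and `T` are
bounded by powers of `log L`).
(iii) `j > L + 1`, `j = L + 1 + m`: the term is at most `a_j 2^(-m)/L`, and
`a_j ≤ (A (log₂(L+1) + m) + 2)^K'`, so the sum is at most `C (log₂(L+1) + 2)^K'/L → 0`. -/
def C_SM2 : Prop :=
  ∀ (K K' A : ℕ) (ε : ℝ), 1 ≤ K → 0 < ε → ∃ j₁ : ℕ, ∀ j₀, j₁ ≤ j₀ → ∃ L₀ : ℕ, ∀ L, L₀ ≤ L →
    ∀ J : ℕ, ∑ j ∈ Ico j₀ J, ((ti A j : ℝ) + 2) ^ K' / j * min 1 (2 ^ (L + 1) / 2 ^ j) *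
      ((max 1 (min j (L - (j + 1 + ti A j))) : ℕ) : ℝ) ^ (-(1 / K : ℝ)) ≤ ε

/-- **C_SM3** (sum of the bounds of `C_MNS`).

PROOF. Let `δ = 1/(2K)`. As `((j+1)/min(u, v))^δ ≤ ((j+1)/u)^δ + ((j+1)/v)^δ` for `u, v > 0`, it suffices to bound
`∑_{j ≥ j₀} j⁻¹ ((j+1)/(th E j + 1))^δ`, a tail of a convergent series (`th E j = 2^(j/(2E))` grows
exponentially), so `≤ ε/2` for `j₀ ≥ j₁`; and `∑_{j₀ ≤ j < √L} j⁻¹ ((j+1)/(L-j-1))^δ ≤
(2√L/(L/2))^δ (1 + log L) → 0` (for `L` large and `j < √L`: `j + 1 ≤ 2√L`, `L - j - 1 ≥ L/2`). -/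
def C_SM3 : Prop :=
  ∀ (K E : ℕ) (ε : ℝ), 1 ≤ K → 1 ≤ E → 0 < ε → ∃ j₁ : ℕ, ∀ j₀, j₁ ≤ j₀ → ∃ L₀ : ℕ, ∀ L, L₀ ≤ L →
    ∑ j ∈ Ico j₀ (Nat.sqrt L), (1 / j : ℝ) *
      (((j + 1 : ℕ) : ℝ) / (min (th E j + 1) (L - j - 1) : ℕ)) ^ (1 / (2 * K) : ℝ) ≤ ε

/-- **C_SM4** (sum of the bounds of `C_OSB`).

PROOF. Let `s = Nat.sqrt L`. `2^(-min(i,j)/K) ≤ 2^(-s/K)`. With `n = i + j` (at most `n + 1` pairs) the sum is at most
`(L+2)^K' 2^(-s/K) ∑_n (n+1)^(K+1) min(1, 2^(L+1-n)) ≤ (L+2)^K' 2^(-s/K) C (L+2)^(K+2)`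
(`∑_{n ≤ L+1} (n+1)^(K+1) ≤ (L+2)^(K+2)`; for `n = L+1+m`, `(n+1)^(K+1) ≤ (L+2)^(K+1) (m+1)^(K+1)`), which tends to
`0` as `L → ∞` because `s + 1 > √L`. -/
def C_SM4 : Prop :=
  ∀ (K K' : ℕ) (ε : ℝ), 1 ≤ K → 0 < ε → ∃ L₀ : ℕ, ∀ L, L₀ ≤ L → ∀ J : ℕ,
    ∑ i ∈ Ico (Nat.sqrt L) J, ∑ j ∈ Ico (Nat.sqrt L) J,
      ((L : ℝ) + 2) ^ K' * ((i : ℝ) + j) ^ K * (2 : ℝ) ^ (-(min i j : ℝ) / K) *
        min 1 (2 ^ (L + 1) / 2 ^ (i + j)) ≤ ε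

open Classical in
/-- **C_STJ** (one block). Let `1 ≤ ti A j`, `1 ≤ j ≤ th E j`, `1 ≤ X`. The sum over the `b` in the family and the
`q` in the block `j` with `Wt` of `cnt · e(nm b/X)` is at most the sum of: the main term
`(|U|/|Λ|) (Q - 1) ∑_b ∑_q Q^(-|rt E b q|) e(nm b/X)`; the left side of `C_SML` with `I = ti A j`; and the left
sides of `C_LRG` for `ti A j ≤ i < tb E j`.

PROOF (from `C_ORT`, `C_PMN`). By `C_ORT`, `cnt = ∑_{D ⊆ rg} ∑_χ part`. By `Wt.small` (the primes of `rg E b q` are in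
blocks `≤ th E j`) every `D ⊆ rg E b q` has `nm D < 2^(tb E j)`, so `Nat.log 2 (nm D) < tb E j`. Split the sum over
`(D, χ)`: `(∅, 1)` gives the main term by `C_PMN` (`Nat.log 2 (nm ∅) = 0 < ti A j`); the other pairs with
`Nat.log 2 (nm D) < ti A j` are bounded by their norm; the rest is the sum over `i`, whose real part is at
most its norm. Take real parts. -/
def C_STJ : Prop :=
  ∀ (p : ℕ) [Fact p.Prime] (B B₀ k U Λ C : Type) [Field k] [Fintype k] [Algebra (ZMod p) k]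
    [AddCommGroup U] [Module k U] [Fintype U] [AddCommGroup Λ] [Module k Λ] [Fintype Λ]
    [AddCommGroup C] (S : Sys p B B₀ k U Λ C) (ψ : AddChar k ℂ), ψ ≠ 1 →
  ∀ (E A j : ℕ) (X : ℝ) (P : Finset B), 1 ≤ ti A j → 1 ≤ j → j ≤ th E j → 1 ≤ X →
    ∑ b ∈ P.powerset with S.Fam b, ∑ q ∈ b with (S.Wt E b q ∧ S.bl q = j),
      (S.cnt E b q : ℝ) * Real.exp (-(S.nm b / X)) ≤
    (Fintype.card U / Fintype.card Λ : ℝ) * ((Fintype.card k : ℝ) - 1) *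
      ∑ b ∈ P.powerset with S.Fam b, ∑ q ∈ b with (S.Wt E b q ∧ S.bl q = j),
        (1 / Fintype.card k : ℝ) ^ (S.rt E b q).card * Real.exp (-(S.nm b / X)) +
    ∑ b ∈ P.powerset with S.Fam b, ∑ q ∈ b with (S.Wt E b q ∧ S.bl q = j),
      ∑ D ∈ (S.rg E b q).powerset with Nat.log 2 (S.nm D) < ti A j,
        ∑ χ : AddChar Λ ℂ with (D.Nonempty ∨ χ ≠ 1),
          ‖S.part ψ E P b q D χ‖ * Real.exp (-(S.nm b / X)) +
    ∑ i ∈ Ico (ti A j) (tb E j),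
      ‖∑ b ∈ P.powerset with S.Fam b, ∑ q ∈ b with (S.Wt E b q ∧ S.bl q = j),
        ∑ D ∈ (S.rg E b q).powerset with Nat.log 2 (S.nm D) = i, ∑ χ : AddChar Λ ℂ,
          S.part ψ E P b q D χ * (Real.exp (-(S.nm b / X)) : ℂ)‖

/-- **C_FIN** (assembly): `MT`.

PROOF (from all the other goals of part C). Let `Q = |k|`, `ρ = |U|/|Λ|`, `E = 2K(K+1)`, `A = 4K`; `K₁, K₂, K₃, K₄, K₅`
the constants of `C_LRG`, `C_SML`, `C_OSB`, `C_MNS`, `C_EX2`, and `ε' > 0` small (depending on `ε` and on all these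
constants). Choose `j₀ ≥ 2` such that `j ≤ th E j` for all `j ≥ j₀`, `K₅/j₀ ≤ ε'`, and `j₀` is at least the `j₁` of
`C_EX5` (`E`), `C_SM1`, `C_SM2` (`K' = K₂`), `C_SM3`, for `ε'`. Then let `X` be so large that, with `L = lg X` and
`s = Nat.sqrt L`: `s ≥ j₀`, `2(j+1) ≤ L` for `j < s`, and `C_EX0` (`j₀`), `C_EX3`, `C_EX6`, `C_SM2`, `C_SM3`,
`C_SM4` hold for `X` or `L` and `ε'`. Let `P' ⊆ P` be the set of the primes of `P` in the blocks `≤ th E s`,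
`J = th E s + 1`. `Σ*` are sums over subsets `b` of `P'`.
(1) The `b ⊆ P` not contained in `P'` have measure `≤ ε' X g(X)` by `C_EX6`. The `b ⊆ P'` in one of the sets of
`C_EX0`, `C_EX2`, `C_EX3`, `C_EX5` have measure `≤ 4 ε' X g(X)`. Let
`b ⊆ P'` be in the family, bad, and in none of these sets. Then the hypotheses of `C_CNT` hold: `Wt.uniq` since
no two primes of `b` are in the same block `≥ j₀`, `Wt.small` by the complement of `C_EX5`. So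
`Q - 1 ≤ ∑_{q ∈ b, Wt, j₀ ≤ bl q} cnt₂ E b q`. By the complement of `C_EX3`, `b` contains a prime which is not split
in a block `≥ s`; the one in the highest block is unique (`s ≥ j₀`), and it satisfies `Top`.
(2) So `(Q - 1) Σ*_{b bad} e(nm b/X)`, over these `b`, is at most the sum of
`Σ*_{Fam b} ∑_{q, Wt, j₀ ≤ bl q < s} cnt E b q e(nm b/X)` (`cnt₂ ≤ cnt`) and of
`Σ*_{Fam b} ∑_{q, Wt, s ≤ bl q} ∑_{P₁, Top, s ≤ bl P₁} cnt₂ E b q e(nm b/X)`; by `C_OSC` the latter is at most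
`(1/p) Σ*_{Fam b} ∑_{q, Wt, s ≤ bl q} cnt E b q e(nm b/X)` (there is at most one `P₁`, and `cnt ≥ 0`) plus
`(1/p) ∑_{s' ≠ 0} ∑_{s ≤ i, j < J} ‖...‖`, the norms of the sums in `C_OSB`; by `C_OSB`, `C_SM4`
(`X < 2^(L+1)`) this last sum is at most `K₃ ε' X g(X)`.
(3) For `j₀ ≤ j < J` apply `C_STJ` (`ti A j ≥ 1` since `j ≥ 2`), `C_SML`, `C_SM2`, `C_LRG`, `C_SM1`: the sum over `j` of the
second and third terms is at most `(K₂ + K₁) ε' X g(X)`.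
(4) The main terms with `j₀ ≤ j < s` are at most `ρ (Q-1) K₄ ε' X g(X)` by `C_MNS`, `C_SM3` (drop `Fam`). The main terms
with `s ≤ j` are, with the factor `1/p`, at most `(ρ/p) Q Σ*_{Fam b} e(nm b/X)` by `C_MNB`.
(5) Dividing by `Q - 1`, the measure of the bad `b` of the family is at most
`ρ Q/(p(Q-1)) Σ*_{Fam b} e(nm b/X) + C ε' X g(X)`, and the first sum is at most the sum over all `b ⊆ P`. -/
def C_FIN : Prop :=
  C_LAB → C_DEC → C_CNT → C_ORT → C_PMN → C_PSM → C_OSC → C_LRG → C_SML → C_OSB → C_MNS → C_MNB →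
    C_EX0 → C_EX2 → C_EX3 → C_EX5 → C_EX6 → C_SM1 → C_SM2 → C_SM3 → C_SM4 → C_STJ → MT

end Pool.Agent.Helper17.PP
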