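import Pool.Agent.Helper17.PP.FinD0
import Pool.Agent.Helper83.PP.CLAB
import Pool.Agent.Helper22.PP.CDEC
import Pool.Agent.Helper28.PP.CCNT
import Pool.Agent.Helper23.PP.CORT
import Pool.Agent.Helper96.PP.CPMN
import Pool.Agent.Helper79.PP.CPSM
import Pool.Agent.Helper74.PP.COSC
import Pool.Agent.Helper9.PP.CLRG
import Pool.Agent.Helper82.PP.CSML
import Pool.Agent.Helper30.PP.COSB
import Pool.Agent.Helper98.PP.CMNS
import Pool.Agent.Helper61.PP.CMNB
import Pool.Agent.Helper44.PP.CEX0
import Pool.Agent.Helper87.PP.CEX2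
import Pool.Agent.Helper61.PP.CEX3
import Pool.Agent.Helper33.PP.CEX5
import Pool.Agent.Helper8.PP.CEX6
import Pool.Agent.Helper29.PP.CSM1
import Pool.Agent.Helper59.PP.CSM2
import Pool.Agent.Helper39.PP.CSM3
import Pool.Agent.Helper47.PP.CSM4
import Pool.Agent.Helper29.PP.CSTJ

/-!
# Project PP, part C: the parts of the abstract moment theorem
-/
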