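import Pool.Agent.Helper17.PP.FinD
import Pool.Agent.Helper17.PP.Parts

/-!
# Project PP, part C: the abstract moment theorem
-/

namespace Pool.Agent.Helper17.PP

/-- The abstract moment theorem. -/
theorem mt : MT :=
  c_fin Pool.Agent.Helper83.PP.c_lab Pool.Agent.Helper22.PP.c_dec Pool.Agent.Helper28.PP.c_cnt
    (Pool.Agent.Helper23.PP.c_ort Pool.Agent.Helper83.PP.c_lab)
    (Pool.Agent.Helper96.PP.c_pmn Pool.Agent.Helper83.PP.c_lab)
    (Pool.Agent.Helper79.PP.c_psm Pool.Agent.Helper83.PP.c_lab)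
    (Pool.Agent.Helper74.PP.c_osc Pool.Agent.Helper83.PP.c_lab)
    (Pool.Agent.Helper9.PP.c_lrg Pool.Agent.Helper83.PP.c_lab Pool.Agent.Helper22.PP.c_dec)
    (Pool.Agent.Helper82.PP.c_sml Pool.Agent.Helper83.PP.c_lab Pool.Agent.Helper22.PP.c_dec
      (Pool.Agent.Helper79.PP.c_psm Pool.Agent.Helper83.PP.c_lab))
    (Pool.Agent.Helper30.PP.c_osb Pool.Agent.Helper22.PP.c_dec)
    (Pool.Agent.Helper98.PP.c_mns Pool.Agent.Helper22.PP.c_dec)
    Pool.Agent.Helper61.PP.c_mnb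
    Pool.Agent.Helper44.PP.c_ex0
    (Pool.Agent.Helper87.PP.c_ex2 Pool.Agent.Helper22.PP.c_dec)
    Pool.Agent.Helper61.PP.c_ex3
    (Pool.Agent.Helper33.PP.c_ex5 Pool.Agent.Helper22.PP.c_dec)
    (Pool.Agent.Helper8.PP.c_ex6 Pool.Agent.Helper22.PP.c_dec)
    Pool.Agent.Helper29.PP.c_sm1 Pool.Agent.Helper59.PP.c_sm2 Pool.Agent.Helper39.PP.c_sm3
    Pool.Agent.Helper47.PP.c_sm4
    (Pool.Agent.Helper29.PP.c_stj (Pool.Agent.Helper23.PP.c_ort Pool.Agent.Helper83.PP.c_lab)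
      (Pool.Agent.Helper96.PP.c_pmn Pool.Agent.Helper83.PP.c_lab))

end Pool.Agent.Helper17.PP
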