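import Pool.Agent.Helper17.PP.GoalsC3

/-!
# Project PP, part C: lemmas for the assembly
-/

namespace Pool.Agent.Helper17.PP

open Finset

theorem le_th_of_large (E : ℕ) (hE : 1 ≤ E) : ∃ j₁ : ℕ, ∀ j, j₁ ≤ j → j ≤ th E j := by
  -- `2^(j/(2E)) ≥ j` for large `j`
  have h : Filter.Tendsto (fun n : ℕ ↦ (n : ℝ) / (2 : ℝ) ^ n) Filter.atTop (nhds 0) := by
    have := tendsto_self_mul_const_pow_of_abs_lt_one (r := (1 / 2 : ℝ)) (by
      rw [abs_of_pos (by norm_num)]; norm_num)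
    refine this.congr fun n ↦ ?_
    rw [one_div, inv_pow]
    rfl
  have h2 : ∀ᶠ n : ℕ in Filter.atTop, (n : ℝ) / (2 : ℝ) ^ n < 1 / (4 * E) :=
    h.eventually (gt_mem_nhds (by positivity))
  obtain ⟨n₀, hn₀⟩ := Filter.eventually_atTop.1 h2
  refine ⟨2 * E * (n₀ + 1), fun j hj ↦ ?_⟩
  unfold th
  set n := j / (2 * E) with hn
  have hEp : 0 < 2 * E := by omega
  have hn1 : n₀ + 1 ≤ n := by
    rw [hn, Nat.le_div_iff_mul_le hEp]
    linarith [hj, mul_comm (n₀ + 1) (2 * E)]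
  have hn2 : j < 2 * E * (n + 1) := by
    have := Nat.lt_div_mul_add (a := j) hEp
    rw [← hn] at this
    nlinarith
  have h3 := hn₀ n (by omega)
  rw [div_lt_div_iff₀ (by positivity) (by positivity)] at h3
  have h4 : n * (4 * E) < 2 ^ n := by
    have : (n : ℝ) * (4 * E) < 2 ^ n := by linarith
    exact_mod_cast this
  have h5 : 2 * E * (n + 1) ≤ n * (4 * E) := by
    have : 1 ≤ n := by omega
    nlinarith
  omega

theorem le_lg {n : ℕ} {X : ℝ} (hX : (2 : ℝ) ^ n ≤ X) : n ≤ lg X := by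
  unfold lg
  have h : 2 ^ n ≤ ⌊X⌋₊ := Nat.le_floor (by exact_mod_cast hX)
  exact Nat.le_log_of_pow_le (by norm_num) h

theorem lt_two_pow_lg (X : ℝ) : X < (2 : ℝ) ^ (lg X + 1) := by
  unfold lg
  have h1 : ⌊X⌋₊ < 2 ^ (Nat.log 2 ⌊X⌋₊ + 1) := Nat.lt_pow_succ_log_self (by norm_num) _
  have h2 : X < (⌊X⌋₊ : ℝ) + 1 := Nat.lt_floor_add_one X
  have h3 : (⌊X⌋₊ : ℝ) + 1 ≤ (2 : ℝ) ^ (Nat.log 2 ⌊X⌋₊ + 1) := by exact_mod_cast h1
  linarith

theorem min_bound (X : ℝ) (n : ℕ) :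
    min 1 (X / 2 ^ n) ≤ min 1 ((2 : ℝ) ^ (lg X + 1) / 2 ^ n) := by
  refine min_le_min le_rfl ?_
  have := lt_two_pow_lg X
  gcongr

theorem sqrt_small {L : ℕ} (hL : 9 ≤ L) {j : ℕ} (hj : j < Nat.sqrt L) : 2 * (j + 1) ≤ L := by
  have h1 : Nat.sqrt L * Nat.sqrt L ≤ L := Nat.sqrt_le L
  have h3 : 3 ≤ Nat.sqrt L := by
    rw [Nat.le_sqrt]
    omega
  nlinarith

namespace Sys

variable {p : ℕ} {B B₀ k U Λ C : Type} [Field k] [AddCommGroup U] [Module k U]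
    [AddCommGroup Λ] [Module k Λ] [AddCommGroup C] (S : Sys p B B₀ k U Λ C)

theorem nm_pos (b : Finset B) : 0 < S.nm b := by
  unfold nm
  exact Finset.prod_pos fun q _ ↦ by have := S.two_le q; omega

theorem cnt₂_le [Algebra (ZMod p) k] [Fintype k] [Fintype U] (E : ℕ) (b : Finset B) (q : B) :
    S.cnt₂ E b q ≤ S.cnt E b q := by
  classical
  unfold cnt₂ cnt
  exact Finset.card_le_card (Finset.monotone_filter_right _ fun z hz h ↦ h.1)

theorem Top.eq {b : Finset B} {P₁ P₂ : B} (h₁ : S.Top b P₁) (h₂ : S.Top b P₂) : P₁ = P₂ := by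
  by_contra h
  have a := h₁.top P₂ h₂.mem h₂.spl (Ne.symm h)
  have c := h₂.top P₁ h₁.mem h₁.spl h
  omega

theorem one_le_bl (q : B) : 1 ≤ S.bl q := by
  unfold bl
  exact Nat.le_log_of_pow_le (by norm_num) (by simpa using S.two_le q)

open Classical in
/-- The unique top prime exists. -/
theorem exists_top (s : ℕ) (b : Finset B)
    (h2 : ∀ q ∈ b, ∀ q' ∈ b, q ≠ q' → S.bl q = S.bl q' → S.bl q < s)
    (h3 : ¬ ∀ q ∈ b, ¬ S.spl q → S.bl q < s) : ∃ P₁, S.Top b P₁ ∧ s ≤ S.bl P₁ := by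
  push Not at h3
  obtain ⟨q, hq, hqs, hqb⟩ := h3
  obtain ⟨P₁, hP₁, hmax⟩ := Finset.exists_max_image (b.filter fun q ↦ ¬ S.spl q) S.bl
    ⟨q, by simp [hq, hqs]⟩
  simp only [mem_filter] at hP₁ hmax
  have hs : s ≤ S.bl P₁ := hqb.trans (hmax q ⟨hq, hqs⟩)
  refine ⟨P₁, ⟨hP₁.1, hP₁.2, fun P' hP' hP's hne ↦ ?_⟩, hs⟩
  refine lt_of_le_of_ne (hmax P' ⟨hP', hP's⟩) fun he ↦ ?_
  have := h2 P' hP' P₁ hP₁.1 hne he
  omega

open Classical in
/-- The sum over `q` with `Wt` in the blocks in `[s, J)` is a sum over the blocks. -/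
theorem sum_blocks {M : Type} [AddCommMonoid M] (b : Finset B) (Φ : B → Prop) (s J : ℕ)
    (F : B → M) (h : ∀ q ∈ b, S.bl q < J) :
    ∑ q ∈ b with (Φ q ∧ s ≤ S.bl q), F q =
      ∑ j ∈ Ico s J, ∑ q ∈ b with (Φ q ∧ S.bl q = j), F q := by
  rw [← Finset.sum_fiberwise_of_maps_to (s := b.filter fun q ↦ Φ q ∧ s ≤ S.bl q)
    (t := Ico s J) (g := S.bl)]
  · refine Finset.sum_congr rfl fun j hj ↦ Finset.sum_congr ?_ fun _ _ ↦ rfl
    rw [mem_Ico] at hj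
    ext q
    simp only [mem_filter]
    constructor
    · rintro ⟨⟨h1, h2, h3⟩, h4⟩
      exact ⟨h1, h2, h4⟩
    · rintro ⟨h1, h2, h3⟩
      exact ⟨⟨h1, h2, by omega⟩, h3⟩
  · intro q hq
    simp only [mem_filter] at hq
    exact mem_Ico.2 ⟨hq.2.2, h q hq.1⟩

end Sys

end Pool.Agent.Helper17.PP
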