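import Pool.Agent.Helper17.PP.Defs

/-!
# Project PP, part C (the abstract moment theorem): definitions and first lemmas
-/

namespace Pool.Agent.Helper17.PP

open Finset

open Classical in
/-- The functions `B → k` with support in `P`. -/
noncomputable def lab {B : Type} (k : Type) [Zero k] [Fintype k] (P : Finset B) :
    Finset (B → k) :=
  (univ : Finset (P → k)).image fun f q ↦ if h : q ∈ P then f ⟨q, h⟩ else 0

theorem mem_lab {B k : Type} [Zero k] [Fintype k] {P : Finset B} {f : B → k} :
    f ∈ lab k P ↔ ∀ q, q ∉ P → f q = 0 := by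
  classical
  unfold lab
  simp only [mem_image, mem_univ, true_and]
  constructor
  · rintro ⟨g, rfl⟩ q hq
    simp [hq]
  · intro h
    refine ⟨fun q ↦ f q, ?_⟩
    funext q
    by_cases hq : q ∈ P
    · simp [hq]
    · simp [hq, h q hq]

/-- The threshold `Θ_j`: only the conditions at the primes in the blocks `≤ Θ_j` are expanded. -/
def th (E j : ℕ) : ℕ := 2 ^ (j / (2 * E))

/-- The moduli of interest in the block `j` have norm less than `2^(tb E j)`. -/
def tb (E j : ℕ) : ℕ := 2 ^ (j / E)

/-- The small moduli have norm less than `2^(ti A j)`, about `j^A`. -/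
def ti (A j : ℕ) : ℕ := A * Nat.log 2 j

/-- The logarithm of `X`. -/
noncomputable def lg (X : ℝ) : ℕ := Nat.log 2 ⌊X⌋₊

namespace Sys

variable {p : ℕ} {B B₀ k U Λ C : Type} [Field k] [AddCommGroup U] [Module k U]
    [AddCommGroup Λ] [Module k Λ] [AddCommGroup C] (S : Sys p B B₀ k U Λ C)

open Classical in
/-- The split primes of `b` in the blocks below the block of `q`. -/
noncomputable def rs (b : Finset B) (q : B) : Finset B :=
  (b.erase q).filter fun q' ↦ S.spl q' ∧ S.bl q' < S.bl q

open Classical in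
/-- The split primes of `b` not in the block of `q`, in the blocks `≤ Θ`. -/
noncomputable def rg (E : ℕ) (b : Finset B) (q : B) : Finset B :=
  (b.erase q).filter fun q' ↦ S.spl q' ∧ S.bl q' ≠ S.bl q ∧ S.bl q' ≤ th E (S.bl q)

open Classical in
/-- The split primes of `b` in the blocks between the block of `q` and `Θ`. -/
noncomputable def rt (E : ℕ) (b : Finset B) (q : B) : Finset B :=
  (b.erase q).filter fun q' ↦ S.spl q' ∧ S.bl q < S.bl q' ∧ S.bl q' ≤ th E (S.bl q)

open Classical in
/-- The label function which is `t` at `q`, `c` at the split primes of `b` in the blocks below the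
block of `q`, and `0` elsewhere. -/
noncomputable def trc (b : Finset B) (q : B) (t : k) (c : B → k) : B → k :=
  fun q' ↦ if q' = q then t else if q' ∈ S.rs b q then c q' else 0

/-- `q` is a split prime of `b`, alone in its block, and the product of the other primes of `b` in the
blocks `≤ Θ` is not too large. -/
structure Wt (E : ℕ) (b : Finset B) (q : B) : Prop where
  mem : q ∈ b
  spl : S.spl q
  uniq : ∀ q' ∈ b, q' ≠ q → S.spl q' → S.bl q' ≠ S.bl q
  small : ∀ D ⊆ b, q ∉ D → (∀ q' ∈ D, S.bl q' ≤ th E (S.bl q)) → S.nm D < 2 ^ tb E (S.bl q)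

/-- `P` is the top prime among the primes of `b` which are not split, alone in its block. -/
structure Top (b : Finset B) (P : B) : Prop where
  mem : P ∈ b
  spl : ¬ S.spl P
  top : ∀ P' ∈ b, ¬ S.spl P' → P' ≠ P → S.bl P' < S.bl P

/-- `(x, c)` satisfies all the conditions except the one at `q` and those at the primes in the blocks
above `Θ`; `q` is the top prime of the support of `c`. -/
structure IsPre [Algebra (ZMod p) k] (E : ℕ) (b : Finset B) (q : B) (x : U) (c : B → k) :
    Prop where
  supp : ∀ q', c q' ≠ 0 → q' = q ∨ q' ∈ S.rs b q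
  ne : c q ≠ 0
  lam : S.lam₀ x + ∑ q' ∈ b, S.lam q' (c q') = 0
  loc : ∀ q' ∈ S.rg E b q, S.R b x c q' = 0

open Classical in
/-- The number of pairs `(x, c)` with `IsPre`. -/
noncomputable def cnt [Algebra (ZMod p) k] [Fintype k] [Fintype U] (E : ℕ) (b : Finset B) (q : B) :
    ℕ :=
  (((univ : Finset U) ×ˢ lab k b).filter fun z ↦ S.IsPre E b q z.1 z.2).card

open Classical in
/-- The number of pairs `(x, c)` with `IsPre` which also satisfy the condition at `q`. -/
noncomputable def cnt₂ [Algebra (ZMod p) k] [Fintype k] [Fintype U] (E : ℕ) (b : Finset B)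
    (q : B) : ℕ :=
  (((univ : Finset U) ×ˢ lab k b).filter fun z ↦ S.IsPre E b q z.1 z.2 ∧ S.R b z.1 z.2 q = 0).card

open Classical in
/-- The part of the expansion of `cnt` in which the nontrivial characters are at the primes of `D`
and the character of `Λ` is `χ`. -/
noncomputable def part [Algebra (ZMod p) k] [Fintype k] [Fintype U] [Fintype Λ]
    (ψ : AddChar k ℂ) (E : ℕ) (P b : Finset B) (q : B) (D : Finset B) (χ : AddChar Λ ℂ) : ℂ :=
  ((Fintype.card k : ℂ) ^ (S.rs b q).card / (Fintype.card Λ * ((lab k P).card : ℂ) ^ 2)) *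
    ∑ x : U, ∑ t : k with t ≠ 0, ∑ c ∈ lab k P,
      ∑ y ∈ lab k P with (∀ q' ∈ S.rg E b q, y q' ≠ 0 ↔ q' ∈ D),
        χ (S.lam₀ x + ∑ q' ∈ b, S.lam q' (S.trc b q t c q')) *
          ∏ q' ∈ D, ψ (y q' * S.R b x (S.trc b q t c) q')

open Classical in
/-- The oscillating part of the weak condition at `q`. -/
noncomputable def osc [Algebra (ZMod p) k] [Fact p.Prime] [Fintype k] [Fintype U]
    (ψ : AddChar k ℂ) (ψ₁ : AddChar (ZMod p) ℂ) (E : ℕ) (P b : Finset B) (q : B) (s : ZMod p) :
    ℂ :=
  ((Fintype.card k : ℂ) ^ (S.rs b q).card / ((lab k P).card : ℂ) ^ 2) *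
    ∑ x : U, ∑ t : k with t ≠ 0, ∑ c ∈ lab k P, ∑ y ∈ lab k P,
      (if S.lam₀ x + ∑ q' ∈ b, S.lam q' (S.trc b q t c q') = 0 ∧
          ∀ q' ∈ S.rt E b q, S.R b x (S.trc b q t c) q' = 0 then
        (∑ w : ZMod p with t * algebraMap (ZMod p) k w = S.R b x (S.trc b q t c) q,
          ψ₁ (s * w)) * ∏ q' ∈ S.rs b q, ψ (y q' * S.R b x (S.trc b q t c) q')
      else 0)

end Sys

end Pool.Agent.Helper17.PP
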