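import Pool.Agent.Helper17.PP.FinA

/-!
# Project PP, part C: the steps of the assembly
-/

namespace Pool.Agent.Helper17.PP

open Finset

section steps

variable {p : ℕ} [Fact p.Prime] {B B₀ k U Λ C : Type} [Field k] [Fintype k]
    [Algebra (ZMod p) k] [AddCommGroup U] [Module k U] [Fintype U] [AddCommGroup Λ] [Module k Λ]
    [Fintype Λ] [AddCommGroup C] (S : Sys p B B₀ k U Λ C)

open Classical in
theorem step1 (hCNT : C_CNT) (E j₀ s : ℕ) (hs : j₀ ≤ s) (X : ℝ) (P : Finset B) :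
    ∑ b ∈ P.powerset with (S.Fam b ∧ S.Bad b), Real.exp (-(S.nm b / X)) ≤
      ∑ b ∈ P.powerset with (∃ q ∈ b, th E s < S.bl q), Real.exp (-(S.nm b / X)) +
      ∑ b ∈ P.powerset with (S.Fam b ∧ ∃ (x : U) (c : B → k), S.IsSol b x c ∧
        ¬ (x = 0 ∧ c = 0) ∧ ∀ q, c q ≠ 0 → S.bl q < j₀), Real.exp (-(S.nm b / X)) +
      ∑ b ∈ P.powerset with (∃ q ∈ b, ∃ q' ∈ b, q ≠ q' ∧ S.bl q = S.bl q' ∧ j₀ ≤ S.bl q),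
        Real.exp (-(S.nm b / X)) +
      ∑ b ∈ P.powerset with (∀ q ∈ b, ¬ S.spl q → S.bl q < s), Real.exp (-(S.nm b / X)) +
      ∑ b ∈ P.powerset with (∃ q ∈ b, j₀ ≤ S.bl q ∧ ∃ D ⊆ b, q ∉ D ∧
        (∀ q' ∈ D, S.bl q' ≤ th E (S.bl q)) ∧ 2 ^ tb E (S.bl q) ≤ S.nm D),
        Real.exp (-(S.nm b / X)) +
      ∑ b ∈ (P.filter fun q ↦ S.bl q ≤ th E s).powerset with (S.Fam b ∧
        (∃ P₁, S.Top b P₁ ∧ s ≤ S.bl P₁) ∧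
        ∃ q, S.Wt E b q ∧ j₀ ≤ S.bl q ∧ Fintype.card k - 1 ≤ S.cnt₂ E b q),
        Real.exp (-(S.nm b / X)) := by
  have hlast : ∑ b ∈ (P.filter fun q ↦ S.bl q ≤ th E s).powerset with (S.Fam b ∧
        (∃ P₁, S.Top b P₁ ∧ s ≤ S.bl P₁) ∧
        ∃ q, S.Wt E b q ∧ j₀ ≤ S.bl q ∧ Fintype.card k - 1 ≤ S.cnt₂ E b q),
        Real.exp (-(S.nm b / X)) =
      ∑ b ∈ P.powerset with ((∀ q ∈ b, S.bl q ≤ th E s) ∧ (S.Fam b ∧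
        (∃ P₁, S.Top b P₁ ∧ s ≤ S.bl P₁) ∧
        ∃ q, S.Wt E b q ∧ j₀ ≤ S.bl q ∧ Fintype.card k - 1 ≤ S.cnt₂ E b q)),
        Real.exp (-(S.nm b / X)) := by
    refine Finset.sum_congr ?_ fun _ _ ↦ rfl
    ext b
    simp only [mem_filter, mem_powerset]
    constructor
    · rintro ⟨h1, h2⟩
      exact ⟨fun q hq ↦ (mem_filter.1 (h1 hq)).1, fun q hq ↦ (mem_filter.1 (h1 hq)).2, h2⟩
    · rintro ⟨h1, h2, h3⟩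
      exact ⟨fun q hq ↦ mem_filter.2 ⟨h1 hq, h2 q hq⟩, h3⟩
  rw [hlast]
  simp only [Finset.sum_filter, ← Finset.sum_add_distrib]
  refine Finset.sum_le_sum fun b hb ↦ ?_
  have he : 0 ≤ Real.exp (-(S.nm b / X)) := (Real.exp_pos _).le
  by_cases hA : S.Fam b ∧ S.Bad b
  swap
  · rw [if_neg hA]
    positivity
  rw [if_pos hA]
  by_cases h6 : ∃ q ∈ b, th E s < S.bl q
  · rw [if_pos h6]
    have : 0 ≤ (if S.Fam b ∧ ∃ (x : U) (c : B → k), S.IsSol b x c ∧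
        ¬ (x = 0 ∧ c = 0) ∧ ∀ q, c q ≠ 0 → S.bl q < j₀ then Real.exp (-(S.nm b / X)) else 0) := by
      positivity
    have : 0 ≤ (if (∃ q ∈ b, ∃ q' ∈ b, q ≠ q' ∧ S.bl q = S.bl q' ∧ j₀ ≤ S.bl q) then
      Real.exp (-(S.nm b / X)) else 0) := by positivity
    have : 0 ≤ (if (∀ q ∈ b, ¬ S.spl q → S.bl q < s) then
      Real.exp (-(S.nm b / X)) else 0) := by positivity
    have : 0 ≤ (if (∃ q ∈ b, j₀ ≤ S.bl q ∧ ∃ D ⊆ b, q ∉ D ∧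
        (∀ q' ∈ D, S.bl q' ≤ th E (S.bl q)) ∧ 2 ^ tb E (S.bl q) ≤ S.nm D) then
      Real.exp (-(S.nm b / X)) else 0) := by positivity
    have : 0 ≤ (if ((∀ q ∈ b, S.bl q ≤ th E s) ∧ (S.Fam b ∧
        (∃ P₁, S.Top b P₁ ∧ s ≤ S.bl P₁) ∧
        ∃ q, S.Wt E b q ∧ j₀ ≤ S.bl q ∧ Fintype.card k - 1 ≤ S.cnt₂ E b q)) then
      Real.exp (-(S.nm b / X)) else 0) := by positivity
    linarith
  rw [if_neg h6]
  by_cases h0 : S.Fam b ∧ ∃ (x : U) (c : B → k), S.IsSol b x c ∧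
        ¬ (x = 0 ∧ c = 0) ∧ ∀ q, c q ≠ 0 → S.bl q < j₀
  · rw [if_pos h0]
    have : 0 ≤ (if (∃ q ∈ b, ∃ q' ∈ b, q ≠ q' ∧ S.bl q = S.bl q' ∧ j₀ ≤ S.bl q) then
      Real.exp (-(S.nm b / X)) else 0) := by positivity
    have : 0 ≤ (if (∀ q ∈ b, ¬ S.spl q → S.bl q < s) then
      Real.exp (-(S.nm b / X)) else 0) := by positivity
    have : 0 ≤ (if (∃ q ∈ b, j₀ ≤ S.bl q ∧ ∃ D ⊆ b, q ∉ D ∧
        (∀ q' ∈ D, S.bl q' ≤ th E (S.bl q)) ∧ 2 ^ tb E (S.bl q) ≤ S.nm D) then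
      Real.exp (-(S.nm b / X)) else 0) := by positivity
    have : 0 ≤ (if ((∀ q ∈ b, S.bl q ≤ th E s) ∧ (S.Fam b ∧
        (∃ P₁, S.Top b P₁ ∧ s ≤ S.bl P₁) ∧
        ∃ q, S.Wt E b q ∧ j₀ ≤ S.bl q ∧ Fintype.card k - 1 ≤ S.cnt₂ E b q)) then
      Real.exp (-(S.nm b / X)) else 0) := by positivity
    linarith
  rw [if_neg h0]
  by_cases h2 : ∃ q ∈ b, ∃ q' ∈ b, q ≠ q' ∧ S.bl q = S.bl q' ∧ j₀ ≤ S.bl q
  · rw [if_pos h2]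
    have : 0 ≤ (if (∀ q ∈ b, ¬ S.spl q → S.bl q < s) then
      Real.exp (-(S.nm b / X)) else 0) := by positivity
    have : 0 ≤ (if (∃ q ∈ b, j₀ ≤ S.bl q ∧ ∃ D ⊆ b, q ∉ D ∧
        (∀ q' ∈ D, S.bl q' ≤ th E (S.bl q)) ∧ 2 ^ tb E (S.bl q) ≤ S.nm D) then
      Real.exp (-(S.nm b / X)) else 0) := by positivity
    have : 0 ≤ (if ((∀ q ∈ b, S.bl q ≤ th E s) ∧ (S.Fam b ∧
        (∃ P₁, S.Top b P₁ ∧ s ≤ S.bl P₁) ∧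
        ∃ q, S.Wt E b q ∧ j₀ ≤ S.bl q ∧ Fintype.card k - 1 ≤ S.cnt₂ E b q)) then
      Real.exp (-(S.nm b / X)) else 0) := by positivity
    linarith
  rw [if_neg h2]
  by_cases h3 : ∀ q ∈ b, ¬ S.spl q → S.bl q < s
  · rw [if_pos h3]
    have : 0 ≤ (if (∃ q ∈ b, j₀ ≤ S.bl q ∧ ∃ D ⊆ b, q ∉ D ∧
        (∀ q' ∈ D, S.bl q' ≤ th E (S.bl q)) ∧ 2 ^ tb E (S.bl q) ≤ S.nm D) then
      Real.exp (-(S.nm b / X)) else 0) := by positivity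
    have : 0 ≤ (if ((∀ q ∈ b, S.bl q ≤ th E s) ∧ (S.Fam b ∧
        (∃ P₁, S.Top b P₁ ∧ s ≤ S.bl P₁) ∧
        ∃ q, S.Wt E b q ∧ j₀ ≤ S.bl q ∧ Fintype.card k - 1 ≤ S.cnt₂ E b q)) then
      Real.exp (-(S.nm b / X)) else 0) := by positivity
    linarith
  rw [if_neg h3]
  by_cases h5 : ∃ q ∈ b, j₀ ≤ S.bl q ∧ ∃ D ⊆ b, q ∉ D ∧
        (∀ q' ∈ D, S.bl q' ≤ th E (S.bl q)) ∧ 2 ^ tb E (S.bl q) ≤ S.nm D
  · rw [if_pos h5]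
    have : 0 ≤ (if ((∀ q ∈ b, S.bl q ≤ th E s) ∧ (S.Fam b ∧
        (∃ P₁, S.Top b P₁ ∧ s ≤ S.bl P₁) ∧
        ∃ q, S.Wt E b q ∧ j₀ ≤ S.bl q ∧ Fintype.card k - 1 ≤ S.cnt₂ E b q)) then
      Real.exp (-(S.nm b / X)) else 0) := by positivity
    linarith
  rw [if_neg h5, if_pos]
  · linarith
  refine ⟨fun q hq ↦ not_lt.1 fun h ↦ h6 ⟨q, hq, h⟩, hA.1, ?_, ?_⟩
  · refine S.exists_top s b (fun q hq q' hq' hne he ↦ ?_) h3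
    by_contra hh
    exact h2 ⟨q, hq, q', hq', hne, he, by omega⟩
  · refine hCNT p B B₀ k U Λ C S E j₀ b hA.2 (fun x c hx hne ↦ ?_) fun q hq hqs hqb ↦ ?_
    · by_contra hh
      push Not at hh
      exact h0 ⟨hA.1, x, c, hx, hne, fun q hq ↦ hh q hq⟩
    · refine ⟨hq, hqs, fun q' hq' hne _ he ↦ h2 ⟨q, hq, q', hq', Ne.symm hne, he.symm, hqb⟩,
        fun D hD hqD hDb ↦ ?_⟩
      by_contra hh
      exact h5 ⟨q, hq, hqb, D, hD, hqD, hDb, not_lt.1 hh⟩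

open Classical in
theorem step2 (E j₀ s : ℕ) (b : Finset B)
    (hT : ∃ P₁, S.Top b P₁ ∧ s ≤ S.bl P₁)
    (hq : ∃ q, S.Wt E b q ∧ j₀ ≤ S.bl q ∧ Fintype.card k - 1 ≤ S.cnt₂ E b q) :
    (Fintype.card k : ℝ) - 1 ≤
      ∑ q ∈ b with (S.Wt E b q ∧ j₀ ≤ S.bl q ∧ S.bl q < s), (S.cnt E b q : ℝ) +
      ∑ q ∈ b with (S.Wt E b q ∧ s ≤ S.bl q), ∑ _P₁ ∈ b with (S.Top b _P₁ ∧ s ≤ S.bl _P₁),
        (S.cnt₂ E b q : ℝ) := by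
  obtain ⟨P₁, hP₁, hP₁s⟩ := hT
  obtain ⟨q, hq, hqj, hqc⟩ := hq
  have hc : (Fintype.card k : ℝ) - 1 ≤ S.cnt₂ E b q := by
    have : Fintype.card k ≤ S.cnt₂ E b q + 1 := by omega
    have h2 : (Fintype.card k : ℝ) ≤ (S.cnt₂ E b q : ℝ) + 1 := by exact_mod_cast this
    linarith
  by_cases hs : S.bl q < s
  · have h1 : (S.cnt E b q : ℝ) ≤
        ∑ q ∈ b with (S.Wt E b q ∧ j₀ ≤ S.bl q ∧ S.bl q < s), (S.cnt E b q : ℝ) :=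
      Finset.single_le_sum (f := fun q ↦ (S.cnt E b q : ℝ)) (fun _ _ ↦ by positivity)
        (mem_filter.2 ⟨hq.mem, hq, hqj, hs⟩)
    have h2 : (S.cnt₂ E b q : ℝ) ≤ S.cnt E b q := by exact_mod_cast S.cnt₂_le E b q
    have h3 : 0 ≤ ∑ q ∈ b with (S.Wt E b q ∧ s ≤ S.bl q),
        ∑ _P₁ ∈ b with (S.Top b _P₁ ∧ s ≤ S.bl _P₁), (S.cnt₂ E b q : ℝ) := by positivity
    linarith
  · have h0 : 0 ≤ ∑ q ∈ b with (S.Wt E b q ∧ j₀ ≤ S.bl q ∧ S.bl q < s),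
        (S.cnt E b q : ℝ) := by positivity
    have h1 : ∑ _P₁ ∈ b with (S.Top b _P₁ ∧ s ≤ S.bl _P₁), (S.cnt₂ E b q : ℝ) ≤
        ∑ q ∈ b with (S.Wt E b q ∧ s ≤ S.bl q),
        ∑ _P₁ ∈ b with (S.Top b _P₁ ∧ s ≤ S.bl _P₁), (S.cnt₂ E b q : ℝ) :=
      Finset.single_le_sum
        (f := fun q ↦ ∑ _P₁ ∈ b with (S.Top b _P₁ ∧ s ≤ S.bl _P₁), (S.cnt₂ E b q : ℝ))
        (fun _ _ ↦ by positivity) (mem_filter.2 ⟨hq.mem, hq, by omega⟩)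
    have h2 : (S.cnt₂ E b q : ℝ) ≤
        ∑ _P₁ ∈ b with (S.Top b _P₁ ∧ s ≤ S.bl _P₁), (S.cnt₂ E b q : ℝ) :=
      Finset.single_le_sum (f := fun _ ↦ (S.cnt₂ E b q : ℝ)) (fun _ _ ↦ by positivity)
        (mem_filter.2 ⟨hP₁.mem, hP₁, hP₁s⟩)
    linarith

open Classical in
theorem step3 (hOSC : C_OSC) (ψ : AddChar k ℂ) (ψ₁ : AddChar (ZMod p) ℂ) (hψ : ψ ≠ 1)
    (hψ₁ : ψ₁ ≠ 1) (E s : ℕ) (P b : Finset B) (hb : b ⊆ P) (hth : ∀ j, s ≤ j → j ≤ th E j) :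
    ∑ q ∈ b with (S.Wt E b q ∧ s ≤ S.bl q), ∑ _P₁ ∈ b with (S.Top b _P₁ ∧ s ≤ S.bl _P₁),
        (S.cnt₂ E b q : ℝ) ≤
      (1 / p : ℝ) * ∑ q ∈ b with (S.Wt E b q ∧ s ≤ S.bl q), (S.cnt E b q : ℝ) +
      (1 / p : ℝ) * ∑ s' ∈ (univ : Finset (ZMod p)).erase 0,
        ∑ q ∈ b with (S.Wt E b q ∧ s ≤ S.bl q), ∑ _P₁ ∈ b with (S.Top b _P₁ ∧ s ≤ S.bl _P₁),
          (S.osc ψ ψ₁ E P b q s').re := by
  rw [Finset.sum_comm (s := (univ : Finset (ZMod p)).erase 0), Finset.mul_sum, Finset.mul_sum,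
    ← Finset.sum_add_distrib]
  refine Finset.sum_le_sum fun q hq ↦ ?_
  rw [mem_filter] at hq
  rw [Finset.sum_comm (s := (univ : Finset (ZMod p)).erase 0)]
  have hcard : (b.filter fun P₁ ↦ S.Top b P₁ ∧ s ≤ S.bl P₁).card ≤ 1 := by
    rw [Finset.card_le_one]
    intro a ha c hc
    exact Sys.Top.eq S (mem_filter.1 ha).2.1 (mem_filter.1 hc).2.1
  have hO := hOSC p B B₀ k U Λ C S ψ ψ₁ hψ hψ₁ E P b q hb hq.1 (hth _ hq.2.2)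
  have h0 : (0 : ℝ) ≤ (1 / p : ℝ) * S.cnt E b q := by positivity
  rcases Nat.lt_or_ge 0 (b.filter fun P₁ ↦ S.Top b P₁ ∧ s ≤ S.bl P₁).card with h | h
  · have h1 : (b.filter fun P₁ ↦ S.Top b P₁ ∧ s ≤ S.bl P₁).card = 1 := by omega
    rw [Finset.sum_const, Finset.sum_const, h1, one_smul, one_smul]
    exact hO
  · have h1 : (b.filter fun P₁ ↦ S.Top b P₁ ∧ s ≤ S.bl P₁).card = 0 := by omega
    rw [Finset.sum_const, Finset.sum_const, h1, zero_smul, zero_smul, mul_zero, add_zero]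
    exact h0

end steps

end Pool.Agent.Helper17.PP
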