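import Pool.Agent.Helper17.PP.FinB

/-!
# Project PP, part C: the sums of the assembly
-/

namespace Pool.Agent.Helper17.PP

open Finset

section steps

variable {p : ℕ} [Fact p.Prime] {B B₀ k U Λ C : Type} [Field k] [Fintype k]
    [Algebra (ZMod p) k] [AddCommGroup U] [Module k U] [Fintype U] [AddCommGroup Λ] [Module k Λ]
    [Fintype Λ] [AddCommGroup C] (S : Sys p B B₀ k U Λ C)

open Classical in
/-- The sum of `cnt` over one block. -/
noncomputable def T1 (E : ℕ) (P : Finset B) (X : ℝ) (j : ℕ) : ℝ :=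
  ∑ b ∈ P.powerset with S.Fam b, ∑ q ∈ b with (S.Wt E b q ∧ S.bl q = j),
      (S.cnt E b q : ℝ) * Real.exp (-(S.nm b / X))

open Classical in
/-- The sum of the main terms over one block. -/
noncomputable def M1 (E : ℕ) (P : Finset B) (X : ℝ) (j : ℕ) : ℝ :=
  ∑ b ∈ P.powerset with S.Fam b, ∑ q ∈ b with (S.Wt E b q ∧ S.bl q = j),
        (1 / Fintype.card k : ℝ) ^ (S.rt E b q).card * Real.exp (-(S.nm b / X))

open Classical in
/-- The oscillating sum for two blocks. -/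
noncomputable def O1 (ψ : AddChar k ℂ) (ψ₁ : AddChar (ZMod p) ℂ) (E : ℕ) (P : Finset B) (X : ℝ)
    (i j : ℕ) (s : ZMod p) : ℂ :=
  ∑ b ∈ P.powerset with S.Fam b, ∑ q ∈ b with (S.Wt E b q ∧ S.bl q = j),
      ∑ _P₁ ∈ b with (S.Top b _P₁ ∧ S.bl _P₁ = i),
        S.osc ψ ψ₁ E P b q s * (Real.exp (-(S.nm b / X)) : ℂ)

theorem T1_nonneg (E : ℕ) (P : Finset B) (X : ℝ) (j : ℕ) : 0 ≤ T1 S E P X j := by
  classical
  unfold T1
  positivity

open Classical in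
theorem step4 (hOSC : C_OSC) (ψ : AddChar k ℂ) (ψ₁ : AddChar (ZMod p) ℂ) (hψ : ψ ≠ 1)
    (hψ₁ : ψ₁ ≠ 1) (E j₀ s : ℕ) (P : Finset B) (X : ℝ)
    (hP : ∀ q ∈ P, S.bl q ≤ th E s) (hth : ∀ j, s ≤ j → j ≤ th E j) (hj₀ : j₀ ≤ s) :
    ((Fintype.card k : ℝ) - 1) * ∑ b ∈ P.powerset with (S.Fam b ∧
        (∃ P₁, S.Top b P₁ ∧ s ≤ S.bl P₁) ∧
        ∃ q, S.Wt E b q ∧ j₀ ≤ S.bl q ∧ Fintype.card k - 1 ≤ S.cnt₂ E b q),
        Real.exp (-(S.nm b / X)) ≤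
      ∑ j ∈ Ico j₀ s, T1 S E P X j + (1 / p : ℝ) * ∑ j ∈ Ico s (th E s + 1), T1 S E P X j +
      (1 / p : ℝ) * ∑ s' ∈ (univ : Finset (ZMod p)).erase 0, ∑ i ∈ Ico s (th E s + 1),
        ∑ j ∈ Ico s (th E s + 1), ‖O1 S ψ ψ₁ E P X i j s'‖ := by
  -- the sum over all `b` in the family of the bound
  have hA : ((Fintype.card k : ℝ) - 1) * ∑ b ∈ P.powerset with (S.Fam b ∧
        (∃ P₁, S.Top b P₁ ∧ s ≤ S.bl P₁) ∧
        ∃ q, S.Wt E b q ∧ j₀ ≤ S.bl q ∧ Fintype.card k - 1 ≤ S.cnt₂ E b q),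
        Real.exp (-(S.nm b / X)) ≤
      ∑ b ∈ P.powerset with S.Fam b,
        (∑ q ∈ b with (S.Wt E b q ∧ j₀ ≤ S.bl q ∧ S.bl q < s), (S.cnt E b q : ℝ) +
        ∑ q ∈ b with (S.Wt E b q ∧ s ≤ S.bl q), ∑ _P₁ ∈ b with (S.Top b _P₁ ∧ s ≤ S.bl _P₁),
          (S.cnt₂ E b q : ℝ)) * Real.exp (-(S.nm b / X)) := by
    rw [Finset.mul_sum]
    refine (Finset.sum_le_sum fun b hb ↦ ?_).trans (Finset.sum_le_sum_of_subset_of_nonneg
      (s := P.powerset.filter fun b ↦ (S.Fam b ∧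
        (∃ P₁, S.Top b P₁ ∧ s ≤ S.bl P₁) ∧
        ∃ q, S.Wt E b q ∧ j₀ ≤ S.bl q ∧ Fintype.card k - 1 ≤ S.cnt₂ E b q)) ?_ ?_)
    · rw [mem_filter] at hb
      exact mul_le_mul_of_nonneg_right (step2 (Λ := Λ) S E j₀ s b hb.2.2.1 hb.2.2.2)
        (Real.exp_pos _).le
    · intro b hb
      rw [mem_filter] at hb ⊢
      exact ⟨hb.1, hb.2.1⟩
    · intro b _ _
      positivity
  have hB : ∀ b ∈ P.powerset.filter fun b ↦ S.Fam b,
      (∑ q ∈ b with (S.Wt E b q ∧ j₀ ≤ S.bl q ∧ S.bl q < s), (S.cnt E b q : ℝ) +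
        ∑ q ∈ b with (S.Wt E b q ∧ s ≤ S.bl q), ∑ _P₁ ∈ b with (S.Top b _P₁ ∧ s ≤ S.bl _P₁),
          (S.cnt₂ E b q : ℝ)) * Real.exp (-(S.nm b / X)) ≤
      ∑ j ∈ Ico j₀ s, ∑ q ∈ b with (S.Wt E b q ∧ S.bl q = j),
        (S.cnt E b q : ℝ) * Real.exp (-(S.nm b / X)) +
      (1 / p : ℝ) * ∑ j ∈ Ico s (th E s + 1), ∑ q ∈ b with (S.Wt E b q ∧ S.bl q = j),
        (S.cnt E b q : ℝ) * Real.exp (-(S.nm b / X)) +
      (1 / p : ℝ) * ∑ s' ∈ (univ : Finset (ZMod p)).erase 0, ∑ i ∈ Ico s (th E s + 1),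
        ∑ j ∈ Ico s (th E s + 1), (∑ q ∈ b with (S.Wt E b q ∧ S.bl q = j),
          ∑ _P₁ ∈ b with (S.Top b _P₁ ∧ S.bl _P₁ = i),
            S.osc ψ ψ₁ E P b q s' * (Real.exp (-(S.nm b / X)) : ℂ)).re := by
    intro b hb
    rw [mem_filter, mem_powerset] at hb
    have h3 := step3 (Λ := Λ) S hOSC ψ ψ₁ hψ hψ₁ E s P b hb.1 hth
    have he : 0 ≤ Real.exp (-(S.nm b / X)) := (Real.exp_pos _).le
    have hbl : ∀ q ∈ b, S.bl q < th E s + 1 := fun q hq ↦ Nat.lt_succ_of_le (hP q (hb.1 hq))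
    -- rewrite the block sums
    have e1 : ∑ j ∈ Ico j₀ s, ∑ q ∈ b with (S.Wt E b q ∧ S.bl q = j),
        (S.cnt E b q : ℝ) * Real.exp (-(S.nm b / X)) =
        (∑ q ∈ b with (S.Wt E b q ∧ j₀ ≤ S.bl q ∧ S.bl q < s), (S.cnt E b q : ℝ)) *
          Real.exp (-(S.nm b / X)) := by
      rw [Finset.sum_mul]
      have h := S.sum_blocks (b.filter fun q ↦ S.bl q < s) (fun q ↦ S.Wt E b q) j₀ s
        (fun q ↦ (S.cnt E b q : ℝ) * Real.exp (-(S.nm b / X)))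
        (fun q hq ↦ (mem_filter.1 hq).2)
      rw [Finset.filter_filter] at h
      have h1 : (b.filter fun q ↦ S.bl q < s ∧ (S.Wt E b q ∧ j₀ ≤ S.bl q)) =
          b.filter fun q ↦ (S.Wt E b q ∧ j₀ ≤ S.bl q ∧ S.bl q < s) := by
        ext q; simp only [mem_filter]; tauto
      rw [h1] at h
      rw [h]
      refine Finset.sum_congr rfl fun j hj ↦ Finset.sum_congr ?_ fun _ _ ↦ rfl
      rw [Finset.filter_filter]
      rw [mem_Ico] at hj
      ext q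
      simp only [mem_filter]
      constructor
      · rintro ⟨h1, h2, h3⟩
        exact ⟨h1, by omega, h2, h3⟩
      · rintro ⟨h1, h2, h3, h4⟩
        exact ⟨h1, h3, h4⟩
    have e2 : ∑ j ∈ Ico s (th E s + 1), ∑ q ∈ b with (S.Wt E b q ∧ S.bl q = j),
        (S.cnt E b q : ℝ) * Real.exp (-(S.nm b / X)) =
        (∑ q ∈ b with (S.Wt E b q ∧ s ≤ S.bl q), (S.cnt E b q : ℝ)) *
          Real.exp (-(S.nm b / X)) := by
      rw [Finset.sum_mul]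
      exact (S.sum_blocks b (fun q ↦ S.Wt E b q) s (th E s + 1)
        (fun q ↦ (S.cnt E b q : ℝ) * Real.exp (-(S.nm b / X))) hbl).symm
    have e3 : ∀ s' : ZMod p, ∑ i ∈ Ico s (th E s + 1),
        ∑ j ∈ Ico s (th E s + 1), (∑ q ∈ b with (S.Wt E b q ∧ S.bl q = j),
          ∑ _P₁ ∈ b with (S.Top b _P₁ ∧ S.bl _P₁ = i),
            S.osc ψ ψ₁ E P b q s' * (Real.exp (-(S.nm b / X)) : ℂ)).re =
        (∑ q ∈ b with (S.Wt E b q ∧ s ≤ S.bl q), ∑ _P₁ ∈ b with (S.Top b _P₁ ∧ s ≤ S.bl _P₁),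
          (S.osc ψ ψ₁ E P b q s').re) * Real.exp (-(S.nm b / X)) := by
      intro s'
      rw [Finset.sum_comm, S.sum_blocks b (fun q ↦ S.Wt E b q) s (th E s + 1) _ hbl,
        Finset.sum_mul]
      refine Finset.sum_congr rfl fun j _ ↦ ?_
      rw [Finset.sum_mul]
      simp only [Complex.re_sum]
      rw [Finset.sum_comm]
      refine Finset.sum_congr rfl fun q _ ↦ ?_
      rw [S.sum_blocks b (fun P₁ ↦ S.Top b P₁) s (th E s + 1) _ hbl, Finset.sum_mul]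
      refine Finset.sum_congr rfl fun i _ ↦ ?_
      rw [Finset.sum_mul]
      refine Finset.sum_congr rfl fun _ _ ↦ ?_
      rw [Complex.re_mul_ofReal]
    rw [e1, e2]
    simp only [e3]
    rw [← Finset.sum_mul]
    have h4 := mul_le_mul_of_nonneg_right h3 he
    nlinarith [h4]
  refine hA.trans ((Finset.sum_le_sum hB).trans ?_)
  rw [Finset.sum_add_distrib, Finset.sum_add_distrib]
  refine add_le_add (add_le_add ?_ ?_) ?_
  · rw [Finset.sum_comm]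
    rfl
  · rw [← Finset.mul_sum, Finset.sum_comm]
    rfl
  · rw [← Finset.mul_sum, Finset.sum_comm]
    refine mul_le_mul_of_nonneg_left ?_ (by positivity)
    refine Finset.sum_le_sum fun s' _ ↦ ?_
    rw [Finset.sum_comm]
    refine Finset.sum_le_sum fun i _ ↦ ?_
    rw [Finset.sum_comm]
    refine Finset.sum_le_sum fun j _ ↦ ?_
    unfold O1
    rw [← Complex.re_sum]
    exact Complex.re_le_norm _

end steps

end Pool.Agent.Helper17.PP
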