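import Pool.Agent.Helper17.PP.FinC

/-!
# Project PP, part C: the abstract moment theorem from the other goals: the last steps
-/

namespace Pool.Agent.Helper17.PP

open Finset

section steps

variable {p : ℕ} [Fact p.Prime] {B B₀ k U Λ C : Type} [Field k] [Fintype k]
    [Algebra (ZMod p) k] [AddCommGroup U] [Module k U] [Fintype U] [AddCommGroup Λ] [Module k Λ]
    [Fintype Λ] [AddCommGroup C] (S : Sys p B B₀ k U Λ C)

theorem M1_nonneg (E : ℕ) (P : Finset B) (X : ℝ) (j : ℕ) : 0 ≤ M1 S E P X j := by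
  classical
  unfold M1
  positivity

/-- One block: the bound for `T1` with explicit error terms. -/
theorem step5 (hSTJ : C_STJ) (ψ : AddChar k ℂ) (hψ : ψ ≠ 1) (g : ℝ → ℝ) (K K₁ K₂ : ℕ)
    (E A : ℕ) (X : ℝ) (P : Finset B) (j : ℕ) (hA : 1 ≤ ti A j) (hj : 1 ≤ j) (hjE : j ≤ th E j)
    (hX : 1 ≤ X) (hg : 0 ≤ g X)
    (hLRG : ∀ i : ℕ, (open Classical in ‖∑ b ∈ P.powerset with S.Fam b,
      ∑ q ∈ b with (S.Wt E b q ∧ S.bl q = j),
      ∑ D ∈ (S.rg E b q).powerset with Nat.log 2 (S.nm D) = i, ∑ χ : AddChar Λ ℂ,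
        S.part ψ E P b q D χ * (Real.exp (-(S.nm b / X)) : ℂ)‖) ≤
      K₁ * (i + 1) ^ K * (2 : ℝ) ^ (-(min i j : ℝ) / K) * (X * g X))
    (hSML : (open Classical in ∑ b ∈ P.powerset with S.Fam b,
      ∑ q ∈ b with (S.Wt E b q ∧ S.bl q = j),
      ∑ D ∈ (S.rg E b q).powerset with Nat.log 2 (S.nm D) < ti A j,
        ∑ χ : AddChar Λ ℂ with (D.Nonempty ∨ χ ≠ 1),
          ‖S.part ψ E P b q D χ‖ * Real.exp (-(S.nm b / X))) ≤
      K₂ * (ti A j + 2) ^ K₂ / j * min 1 (X / 2 ^ j) *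
        ((max 1 (min j (lg X - (j + 1 + ti A j))) : ℕ) : ℝ) ^ (-(1 / K : ℝ)) * (X * g X)) :
    T1 S E P X j ≤ (Fintype.card U / Fintype.card Λ : ℝ) * ((Fintype.card k : ℝ) - 1) *
        M1 S E P X j +
      K₂ * (((ti A j : ℝ) + 2) ^ K₂ / j * min 1 (2 ^ (lg X + 1) / 2 ^ j) *
        ((max 1 (min j (lg X - (j + 1 + ti A j))) : ℕ) : ℝ) ^ (-(1 / K : ℝ))) * (X * g X) +
      K₁ * (∑ i ∈ Ico (ti A j) (tb E j),
        ((i : ℝ) + 1) ^ K * (2 : ℝ) ^ (-(min i j : ℝ) / K)) * (X * g X) := by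
  classical
  have h := hSTJ p B B₀ k U Λ C S ψ hψ E A j X P hA hj hjE hX
  have hXg : 0 ≤ X * g X := by positivity
  refine (le_trans h ?_)
  refine add_le_add (add_le_add le_rfl ?_) ?_
  · refine hSML.trans (mul_le_mul_of_nonneg_right ?_ hXg)
    have hm := min_bound X j
    have h2 : (0 : ℝ) ≤ K₂ * (((ti A j : ℝ) + 2) ^ K₂ / j) := by positivity
    have h3 : (0 : ℝ) ≤ ((max 1 (min j (lg X - (j + 1 + ti A j))) : ℕ) : ℝ) ^ (-(1 / K : ℝ)) := by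
      positivity
    calc K₂ * (ti A j + 2) ^ K₂ / j * min 1 (X / 2 ^ j) *
        ((max 1 (min j (lg X - (j + 1 + ti A j))) : ℕ) : ℝ) ^ (-(1 / K : ℝ))
        = K₂ * (((ti A j : ℝ) + 2) ^ K₂ / j) * min 1 (X / 2 ^ j) *
        ((max 1 (min j (lg X - (j + 1 + ti A j))) : ℕ) : ℝ) ^ (-(1 / K : ℝ)) := by ring
      _ ≤ K₂ * (((ti A j : ℝ) + 2) ^ K₂ / j) * min 1 (2 ^ (lg X + 1) / 2 ^ j) *
        ((max 1 (min j (lg X - (j + 1 + ti A j))) : ℕ) : ℝ) ^ (-(1 / K : ℝ)) := by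
          exact mul_le_mul_of_nonneg_right (mul_le_mul_of_nonneg_left hm h2) h3
      _ = _ := by ring
  · refine (Finset.sum_le_sum fun i _ ↦ hLRG i).trans (le_of_eq ?_)
    rw [Finset.mul_sum, Finset.sum_mul]
    refine Finset.sum_congr rfl fun i _ ↦ ?_
    ring

/-- The main terms for large `q`. -/
theorem step6 (hMNB : C_MNB) (E s : ℕ) (P : Finset B) (X : ℝ) (hP : ∀ q ∈ P, S.bl q ≤ th E s) :
    ((Fintype.card k : ℝ) - 1) * ∑ j ∈ Ico s (th E s + 1), M1 S E P X j ≤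
      Fintype.card k * (open Classical in ∑ b ∈ P.powerset with S.Fam b,
        Real.exp (-(S.nm b / X))) := by
  classical
  unfold M1
  rw [Finset.sum_comm, Finset.mul_sum, Finset.mul_sum]
  refine Finset.sum_le_sum fun b hb ↦ ?_
  rw [mem_filter, mem_powerset] at hb
  have hbl : ∀ q ∈ b, S.bl q < th E s + 1 := fun q hq ↦ Nat.lt_succ_of_le (hP q (hb.1 hq))
  rw [← S.sum_blocks b (fun q ↦ S.Wt E b q) s (th E s + 1)
    (fun q ↦ (1 / Fintype.card k : ℝ) ^ (S.rt E b q).card * Real.exp (-(S.nm b / X))) hbl,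
    ← Finset.sum_mul, ← mul_assoc]
  refine mul_le_mul_of_nonneg_right ?_ (Real.exp_pos _).le
  rw [Finset.mul_sum]
  exact hMNB p B B₀ k U Λ C S E s b fun q hq ↦ hP q (hb.1 hq)

end steps

end Pool.Agent.Helper17.PP
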