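import Pool.Agent.Helper17.PP.GoalsC1

/-!
# Project PP, part C, goals 2: the sums over `b`

Every statement is a `def ... : Prop` with its complete proof in the docstring. `Q = |k|`, `e(z)` is
`exp(-z)`. In all these statements the constant `K'` depends on everything except `E, i, j, I, X, P`.
-/

namespace Pool.Agent.Helper17.PP

open Finset

open Classical in
/-- **C_LRG** (the large moduli). The sum over `b` in the family, over `q` in the block `j` with `Wt`, over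
the `D ⊆ rg E b q` in the block `i` and over all `χ`, of `part · e(nm b/X)`, is at most
`K' (i+1)^K 2^(-min(i,j)/K) X g(X)`.

PROOF (from `C_LAB`, `C_DEC`, and `bl₁`, `ht`, `g_mono` of `Hyp`). Write `b = {q} ∪ D ∪ r`, a disjoint union,
`D ⊆ rg E b q`, `r = (b.erase q) \ D`. By `C_DEC` the sum is a sum over `r ⊆ P`, `q ∈ P \ r`,
`D ⊆ P \ r`, `q ∉ D`. Insert the definition of `part`, and bring the sums over `x, t, χ, c, y`
outside; fix these and `r`. Let `rs_j(D)`, `rg_j(D)` be the set of the split primes of `D` in the blocks `< j`,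
resp. `≠ j` and `≤ th E j`.
*Conditions.* (1) `q` split, `bl q = j`; (2) no split prime of `D ∪ r` is in the block `j`; (3)
`D ⊆ rg_j(D)`, that is all primes of `D` are split in blocks `≠ j`, `≤ th E j`; `Nat.log 2 (nm D) = i`; (4) every
subset of `D ∪ r` consisting of primes in blocks `≤ th E j` has norm `< 2^(tb E j)` (`Wt.small`); (5)
`bs` is injective on `D ∪ r`; then it is injective on `b`, because if `bs q' = bs q` with `q' ∈ D ∪ r` then `q'`
is split in the block `j` (`bsN`, `bsS`), against (2); (6) `cls q + ∑_D cls + ∑_r cls = cl₀`; (7) `y ≠ 0` on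
`D`; (8) `y = 0` on `rg_j(r)` (`rg E b q = rg_j(D) ∪ rg_j(r)`). The only conditions which involve both `q` and `D` are
(6) and `q ∉ D`, and `q ∉ D` follows from (3). Conversely (1)-(8) give all the conditions of the sum.
*Phases.* `c' = trc b q t c` is `t` at `q`, `c` on `rs_j(D) ∪ rs_j(r)`, `0` elsewhere. So the argument of `χ` is
`lam₀ x + lam q t +` a term depending on `D` (and `r`, fixed). For `q' ∈ D`,
`R b x c' q' = (t a(q', q) + c'(q') κ(q', q)) +` a term which does not depend on `q`, because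
`b.erase q' = {q} ∪ (D ∪ r).erase q'`. Let `c̃ q' = c q'` if `bl q' < j` and `0` otherwise; so
`∏_{q' ∈ D} ψ(y q' R b x c' q') = chr ψ D y c̃ t q ·` (a number of norm 1 depending on `D`).
*The bilinear form.* Also `Q^|rs b q| = Q^|rs_j(D)| Q^|rs_j(r)|` and `nm b = N q · nm D · nm r`. Detect (6) by
summing over `γ ∈ C`: `cls q = γ` and `∑_D cls = cl₀ - γ - ∑_r cls`. For fixed `x, t, χ, c, y, r, γ` we get
`Q^|rs_j(r)| 1[(8)]` times a sum as in `bl₁` with `Y = X/nm r`, `α q = 1[q ∈ P, cls q = γ] χ(lam q t)`, and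
`β D =` the indicator of the remaining conditions on `D`, times `Q^|rs_j(D)|`, times numbers of norm 1
(`‖β D‖ ≤ Q^|D|`; `AddChar.norm_apply`). All `D` of norm in the block `i` are in `mods i`. `bl₁` gives the bound
`K 2^(i+j) (i+1)^K 2^(-min(i,j)/K) e(2^(i+j) nm r/(2X))`.
*Summation.* By `C_LAB` (4) the number of `y ∈ lab k P` with (8) is `|lab k P| Q^(-|rg_j(r)|)`, and
`|rs_j(r)| ≤ |rg_j(r)|` because `j ≤ th E j`. There are `|lab k P|` functions `c`, `|Λ|` characters `χ`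
(`AddChar.card_eq`), at most `Q` values of `t`, `|U|` of `x`, `|C|` of `γ`. So the total is at most
`|U| Q |C| K 2^(i+j) (i+1)^K 2^(-min(i,j)/K) ∑_{r ⊆ P} e(nm r/Y')`, `Y' = 2X/2^(i+j) ≤ X`, and by `ht` with `f = 1`
the last sum is `≤ K Y' min(1,Y') g(Y') ≤ K (2X/2^(i+j)) K g(X)`. -/
def C_LRG : Prop :=
  ∀ (p : ℕ) [Fact p.Prime] (B B₀ k U Λ C : Type) [Field k] [Fintype k] [Algebra (ZMod p) k]
    [AddCommGroup U] [Module k U] [Fintype U] [AddCommGroup Λ] [Module k Λ] [Fintype Λ]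
    [AddCommGroup C] [Finite C] (S : Sys p B B₀ k U Λ C) (ψ : AddChar k ℂ)
    (ψ₁ : AddChar (ZMod p) ℂ) (g : ℝ → ℝ) (K : ℕ), S.Hyp ψ ψ₁ g K →
  ∃ K' : ℕ, ∀ (E i j : ℕ) (X : ℝ) (P : Finset B), 1 ≤ j → j ≤ th E j → 1 ≤ X →
    ‖∑ b ∈ P.powerset with S.Fam b, ∑ q ∈ b with (S.Wt E b q ∧ S.bl q = j),
      ∑ D ∈ (S.rg E b q).powerset with Nat.log 2 (S.nm D) = i, ∑ χ : AddChar Λ ℂ,
        S.part ψ E P b q D χ * (Real.exp (-(S.nm b / X)) : ℂ)‖ ≤
      K' * (i + 1) ^ K * (2 : ℝ) ^ (-(min i j : ℝ) / K) * (X * g X)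

open Classical in
/-- **C_SML** (the small moduli). The sum over `b` in the family, over `q` in the block `j` with `Wt`, over
the `D ⊆ rg E b q` with `Nat.log 2 (nm D) < I` and over the `χ`, with `(D, χ) ≠ (∅, 1)`, of
`‖part‖ e(nm b/X)`, is at most `K' (I+2)^K' j⁻¹ min(1, X/2^j) (max 1 n)^(-1/K) X g(X)`,
`n = min j (lg X - (j+1+I))` (subtraction in `ℕ`).

PROOF (from `C_LAB`, `C_DEC`, `C_PSM`, and `sm`, `ht`, `che`, `g_mono` of `Hyp`). Let `b, q, D, χ` be as in the sum,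
`r = (b.erase q) \ D`. Let `f(q'')` (depending on `D, χ, y, j`) be `0` if `q''` is split, `bl q'' < j`,
`bs q'' ≠ bs q'` for all `q' ∈ D`, and `fB ψ χ D y q'' t ≠ 1` for some `t`; otherwise `f(q'') = 1`. By `C_PSM`
`‖part‖ ≤ |U| Q Q^|rs b q| |lab k P|⁻¹ #Y₁`, where `Y₁` is the set of the `y ∈ lab k P` with: `y ≠ 0` on `D`, `y = 0`
on `rg E b q \ D`, `fU ψ χ D y = 1` on `U`, `f = 1` on `r` (if `q'' ∈ r` is split, `bl q'' < j`, then `q'' ∈ rs b q`,
`q'' ∉ D`, so `fB ψ χ D y q'' t = 1` for all `t`). All conditions except the second depend only on the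
restriction of `y` to `D`; by `C_LAB` (4) `#Y₁ = Q^(-|rg E b q \ D|) #Y₂`, `Y₂` without the second condition. As
`rs b q ⊆ rg E b q` (`j ≤ th E j`), `|rs b q| ≤ |D| + |rg E b q \ D|`. So
`‖part‖ ≤ |U| Q Q^|D| |lab k P|⁻¹ ∑_{y ∈ lab k P} 1[y ≠ 0 on D, fU = 1 on U] ∏_{q'' ∈ r} f(q'')`.
Now `nm b = N q · nm D · nm r`. Sum over `b, q, D`, using `C_DEC` (all terms are nonnegative, so we may
drop conditions, except: `q` in the block `j`; `D ⊆ P` with `bs` injective on `D`, all primes of `D` split,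
`nm D < 2^I`; `r ⊆ P`). Fix `q, D, χ, y` (`y ≠ 0` on `D`, `fU = 1` on `U`) and let `Y = X/(N q nm D)`. By `ht`
`∑_{r ⊆ P} (∏ f) e(nm r/Y) ≤ K Y min(1,Y) g(Y) e(∑_{q'' ∈ upto Y, f = 0} 1/N q'')`; `g(Y) ≤ K g(X)`,
`min(1,Y) ≤ min(1, X/2^j)`. CLAIM: `e(∑_{q'' ∈ upto Y, f = 0} 1/N q'') ≤ (max 1 n)^(-1/K) (log(nm D + 3))^K e^K`. If
`n = 0` the left side is `≤ 1` and `log(nm D + 3) ≥ log 4 > 1`. If `n ≥ 1`, then
`2^n 2^(j+1+I) ≤ 2^(lg X) ≤ X`, so `2^n ≤ Y` and every prime of `below n` is in `upto Y` and in a block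
`< n ≤ j`; so the sum is at least the sum in `sm`, `≥ K⁻¹ log n - K log log(nm D + 3) - K`.
*Sum over D.* `log(nm D + 3) ≤ log(2^(I+2)) ≤ I + 2`; every prime of `D` is in `below I`; so
`∑_D Q^|D| (nm D)⁻¹ ≤ ∏_{q' ∈ below I} (1 + Q/N q') ≤ exp(Q ∑_{below I} 1/N q')`, and by `che`
`∑_{below I} 1/N q' ≤ ∑_{1 ≤ m < I} K/m ≤ K (1 + log(I+1))` (`N q' ≥ 2`, so the block 0 is empty). This is
`≤ e^(QK) (I+2)^(QK)`. Finally `∑_{q ∈ blk j} 1/N q ≤ K/j`, there are `|Λ|` characters `χ`. The total is at most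
`|U| Q |Λ| K³ e^K e^(QK) (I+2)^(K+QK) j⁻¹ min(1, X/2^j) (max 1 n)^(-1/K) X g(X)`. -/
def C_SML : Prop :=
  ∀ (p : ℕ) [Fact p.Prime] (B B₀ k U Λ C : Type) [Field k] [Fintype k] [Algebra (ZMod p) k]
    [AddCommGroup U] [Module k U] [Fintype U] [AddCommGroup Λ] [Module k Λ] [Fintype Λ]
    [AddCommGroup C] [Finite C] (S : Sys p B B₀ k U Λ C) (ψ : AddChar k ℂ)
    (ψ₁ : AddChar (ZMod p) ℂ) (g : ℝ → ℝ) (K : ℕ), S.Hyp ψ ψ₁ g K →
  ∃ K' : ℕ, ∀ (E j I : ℕ) (X : ℝ) (P : Finset B), 1 ≤ j → j ≤ th E j → 1 ≤ X →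
    ∑ b ∈ P.powerset with S.Fam b, ∑ q ∈ b with (S.Wt E b q ∧ S.bl q = j),
      ∑ D ∈ (S.rg E b q).powerset with Nat.log 2 (S.nm D) < I,
        ∑ χ : AddChar Λ ℂ with (D.Nonempty ∨ χ ≠ 1),
          ‖S.part ψ E P b q D χ‖ * Real.exp (-(S.nm b / X)) ≤
      K' * (I + 2) ^ K' / j * min 1 (X / 2 ^ j) *
        ((max 1 (min j (lg X - (j + 1 + I))) : ℕ) : ℝ) ^ (-(1 / K : ℝ)) * (X * g X)

open Classical in
/-- **C_OSB** (the oscillating sums). The sum over `b` in the family, over `q` in the block `j` with `Wt` and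
over `P₁` in the block `i` with `Top` (at most one), of `osc · e(nm b/X)`, is at most
`K' (lg X + 2)^K' (i+j)^K 2^(-min(i,j)/K) min(1, X/2^(i+j)) X g(X)`.

PROOF (from `C_DEC`, and `bl₂`, `ht`, `che`, `g_mono` of `Hyp`). Write `b = {q, P₁} ∪ r` (`q ≠ P₁` since `q` is
split and `P₁` is not), by `C_DEC` (1) twice. Insert the definition of `osc`, bring the sums over `x, t, c, y`
outside, and fix these and `r`.
*Conditions.* (1) `q` split, `bl q = j`; `P₁` not split, `bl P₁ = i`; (2) no split prime of `r` is in the block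
`j`, all the primes of `r` which are not split are in blocks `< i`; (3) every subset of `{P₁} ∪ r` consisting of
primes in blocks `≤ th E j` has norm `< 2^(tb E j)`; (4) `bs` is injective on `r`; then it is injective on `b`
by (2), `bsN`, `bsS`; (5) `cls q + cls P₁ + ∑_r cls = cl₀`. Only (5) involves both `q` and `P₁`.
*Phases.* `rs b q = rs_j(r)`, the split primes of `r` in the blocks `< j`; `rt E b q ⊆ r`. `c' = trc b q t c` is
`t` at `q`, `c` on `rs_j(r)`, and `0` elsewhere, in particular at `P₁`. The condition on `lam` depends on `q` and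
`r` only. For `q' ∈ rt E b q`, `c' q' = 0` and `R b x c' q'` depends on `q`, `r` only. For
`q' ∈ rs b q`: `R b x c' q' = c(q') κ(q', P₁) +` a term depending on `q, r`. Finally
`R b x c' q = t κ(q, P₁) + R'`, `R'` depending on `q, r` only, so the `w` with `t w = R b x c' q` are the
`w = κ(q, P₁) + w'` with `t w' = R'`: `∑_w ψ₁(s w) = ψ₁(s κ(q, P₁)) ∑_{w'} ψ₁(s w')`, and there is at most one
`w'`. So for fixed `γ ∈ C` (`cls q = γ`, `cls P₁ = cl₀ - γ - ∑_r cls`) we get `Q^|rs_j(r)|` times a bilinear form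
as in `bl₂` with `Y = X/nm r`, `α P₁ = 1[conditions] ∏_{q' ∈ rs_j(r)} ψ(y q' c q' κ(q', P₁))`, and `β q` of
norm `≤ 1`; its norm is at most `K 2^(i+j) (i+j)^K 2^(-min(i,j)/K) e(2^(i+j) nm r/(2X))`.
*Summation.* The number of `(x, t, c, y, γ)` divided by `|lab k P|²` is at most `|U| Q |C|`. By `ht` with `f = Q`,
`∑_{r ⊆ P} Q^|r| e(nm r/Y') ≤ K Y' min(1,Y') g(Y') exp(∑_{upto Y'} (Q-1)/N q')`, `Y' = 2X/2^(i+j) ≤ X`
(`i + j ≥ 2`); `upto Y' ⊆ upto X` is contained in the union of the blocks `1, ..., lg X`, so by `che` the exponent is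
`≤ (Q-1) K (1 + log(lg X + 1))`. `2^(i+j) Y' = 2X` and `min(1,Y') ≤ 2 min(1, X/2^(i+j))`. -/
def C_OSB : Prop :=
  ∀ (p : ℕ) [Fact p.Prime] (B B₀ k U Λ C : Type) [Field k] [Fintype k] [Algebra (ZMod p) k]
    [AddCommGroup U] [Module k U] [Fintype U] [AddCommGroup Λ] [Module k Λ] [Fintype Λ]
    [AddCommGroup C] [Finite C] (S : Sys p B B₀ k U Λ C) (ψ : AddChar k ℂ)
    (ψ₁ : AddChar (ZMod p) ℂ) (g : ℝ → ℝ) (K : ℕ), S.Hyp ψ ψ₁ g K →
  ∃ K' : ℕ, ∀ (E i j : ℕ) (s : ZMod p) (X : ℝ) (P : Finset B), 1 ≤ i → 1 ≤ j → j ≤ th E j →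
      s ≠ 0 → 1 ≤ X →
    ‖∑ b ∈ P.powerset with S.Fam b, ∑ q ∈ b with (S.Wt E b q ∧ S.bl q = j),
      ∑ _P₁ ∈ b with (S.Top b _P₁ ∧ S.bl _P₁ = i),
        S.osc ψ ψ₁ E P b q s * (Real.exp (-(S.nm b / X)) : ℂ)‖ ≤
      K' * (lg X + 2) ^ K' * (i + j) ^ K * (2 : ℝ) ^ (-(min i j : ℝ) / K) *
        min 1 (X / 2 ^ (i + j)) * (X * g X)

open Classical in
/-- **C_MNS** (the main terms for small `q`). If `2(j+1) ≤ lg X`, the sum over `b ⊆ P` and over `q` in the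
block `j` with `Wt`, of `Q^(-|rt E b q|) e(nm b/X)`, is at most
`K' j⁻¹ ((j+1)/min(th E j + 1, lg X - j - 1))^(1/(2K)) X g(X)`.

PROOF (from `C_DEC`, and `mers`, `ht`, `che`, `g_mono` of `Hyp`). With `r = b.erase q`,
`Q^(-|rt E b q|) = ∏_{q' ∈ r} f(q')`, `f(q') = 1/Q` if `q'` is split and `j < bl q' ≤ th E j`, otherwise `1`. By `C_DEC` (1)
the sum is at most `∑_{q ∈ blk j} ∑_{r ⊆ P} (∏ f) e(nm r/Y)`, `Y = X/N q`. By `ht` the inner sum is at most
`K Y min(1,Y) g(Y) e((1 - 1/Q) Σ)`, `Σ` the sum of `1/N q'` over the split `q' ∈ upto Y`,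
`j < bl q' ≤ th E j`. Let `m = j + 1`, `n = min(th E j + 1, lg X - j - 1)`; `m ≤ n`. If `bl q' < n` then
`N q' < 2^n ≤ 2^(lg X) / 2^(j+1) ≤ X/2^(j+1) < Y`, so `Σ ≥ ∑_{below n, split, m ≤ bl} 1/N q' ≥ K⁻¹ log(n/m) - K`
by `mers`; `Σ ≥ 0` and `1 - 1/Q ≥ 1/2`, so `e((1-1/Q) Σ) ≤ e(Σ/2) ≤ e^K (m/n)^(1/(2K))`. `g(Y) ≤ K g(X)`,
`∑_{q ∈ blk j} 1/N q ≤ K/j`: `K' ≥ K³ e^K`. -/
def C_MNS : Prop :=
  ∀ (p : ℕ) [Fact p.Prime] (B B₀ k U Λ C : Type) [Field k] [Fintype k] [Algebra (ZMod p) k]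
    [AddCommGroup U] [Module k U] [Fintype U] [AddCommGroup Λ] [Module k Λ] [Fintype Λ]
    [AddCommGroup C] [Finite C] (S : Sys p B B₀ k U Λ C) (ψ : AddChar k ℂ)
    (ψ₁ : AddChar (ZMod p) ℂ) (g : ℝ → ℝ) (K : ℕ), S.Hyp ψ ψ₁ g K →
  ∃ K' : ℕ, ∀ (E j : ℕ) (X : ℝ) (P : Finset B), 1 ≤ j → j ≤ th E j → 1 ≤ X →
      2 * (j + 1) ≤ lg X →
    ∑ b ∈ P.powerset, ∑ q ∈ b with (S.Wt E b q ∧ S.bl q = j),
        (1 / Fintype.card k : ℝ) ^ (S.rt E b q).card * Real.exp (-(S.nm b / X)) ≤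
      K' / j * (((j + 1 : ℕ) : ℝ) / (min (th E j + 1) (lg X - j - 1) : ℕ)) ^ (1 / (2 * K) : ℝ) *
        (X * g X)

open Classical in
/-- **C_MNB** (the main terms for large `q`, pointwise). If all the primes of `b` are in the blocks
`≤ th E s`, the sum over the `q` with `Wt E b q` and `s ≤ bl q` of `(Q - 1) Q^(-|rt E b q|)` is at most `Q`.

PROOF. Let `W` be the set of these `q`; they are split and in distinct blocks (`Wt.uniq`). For `q ∈ W` the
set `rt E b q` contains all the `q' ∈ W` with `bl q < bl q'`, since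
`bl q' ≤ th E s ≤ th E (bl q)` (`th` is monotone). So `|rt E b q| ≥ h(q)`, the number of the elements of `W` in
a block above `q`, and `h` is injective on `W`. So the sum is at most
`(Q - 1) ∑_{h ≥ 0} Q^(-h) = Q` (`Q ≥ 2`; use `Finset.sum_image` with `h : W → ℕ` and the finite geometric sum). -/
def C_MNB : Prop :=
  ∀ (p : ℕ) (B B₀ k U Λ C : Type) [Field k] [Fintype k]
    [AddCommGroup U] [Module k U] [AddCommGroup Λ] [Module k Λ]
    [AddCommGroup C] (S : Sys p B B₀ k U Λ C) (E s : ℕ) (b : Finset B),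
    (∀ q ∈ b, S.bl q ≤ th E s) →
    ∑ q ∈ b with (S.Wt E b q ∧ s ≤ S.bl q),
      ((Fintype.card k : ℝ) - 1) * (1 / Fintype.card k : ℝ) ^ (S.rt E b q).card ≤ Fintype.card k

end Pool.Agent.Helper17.PP
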